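import Mathlib
import Pool.Agent.N248.RR.F
set_option autoImplicit false

/-! Random regions: transference from a local estimate with small losses. -/

namespace Pool.Agent.N248.RL

open MeasureTheory Set ProbabilityTheory Filter
open scoped ENNReal NNReal
open Pool.Agent.N248.RR

variable {d : ℕ} {H : Type*} [NormedAddCommGroup H] [InnerProductSpace ℂ H]

section
variable {Ω : Type*} (A : (Fin d → ℤ) → Set Ω)

theorem det_count_loc {S : Set H} (hSub : ∀ f ∈ S, ‖f‖ ≤ 1)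
    {φ : EuclideanSpace ℝ (Fin d) → H} {L : ℝ}
    (κ K u₀ l : ℕ) (u : ℕ → ℕ)
    (hκ : ∀ (f : H), ‖f‖ ≤ 1 → ∀ F : Finset (Fin d → ℤ),
      (∀ i ∈ F, ∀ j ∈ F, i ≠ j → ((2 ^ (κ * (l + 1)) : ℕ) : ℝ) < ‖i - j‖) →
      (∀ j ∈ F, hit φ ((1 / 2) ^ l) f j) → (F.card : ℝ) ≤ 2 * L ^ 2 * 4 ^ l)
    (ω : Ω) (hbad : ∀ k, k < K * (l + 1) → ω ∉ Bad A S φ k l (u k))
    (hcrowd : ∀ k, K * (l + 1) ≤ k → ω ∉ Crowd A k (2 ^ (κ * (l + 1))) u₀)
    (f : H) (hf : f ∈ S) (T : Finset (Fin d → ℤ))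
    (hT : ∀ j ∈ T, ω ∈ A j ∧ hit φ ((1 / 2) ^ l) f j) :
    (T.card : ℝ) ≤ (∑ k ∈ Finset.range (K * (l + 1)), (u k : ℝ)) + 2 * L ^ 2 * 4 ^ l * u₀ := by
  classical
  set r : ℕ := 2 ^ (κ * (l + 1)) with hr
  set N : ℕ → Finset (Fin d → ℤ) := fun k => T.filter fun j => j ∈ Ann d k with hN
  set R : Finset (Fin d → ℤ) := T.filter fun j => ∃ k, K * (l + 1) ≤ k ∧ j ∈ Ann d k with hR
  have hcover : T ⊆ (Finset.range (K * (l + 1))).biUnion N ∪ R := by
    intro j hj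
    obtain ⟨k, hk⟩ := exists_ann j
    rw [Finset.mem_union, Finset.mem_biUnion]
    rcases lt_or_ge k (K * (l + 1)) with h | h
    · exact Or.inl ⟨k, Finset.mem_range.2 h, Finset.mem_filter.2 ⟨hj, hk⟩⟩
    · exact Or.inr (Finset.mem_filter.2 ⟨hj, k, h, hk⟩)
  have hnear : ∀ k ∈ Finset.range (K * (l + 1)), (N k).card ≤ u k := by
    intro k hkr
    by_contra hcon
    push Not at hcon
    obtain ⟨T', hT', hc⟩ := Finset.exists_subset_card_eq hcon.le
    refine hbad k (Finset.mem_range.1 hkr) ⟨f, hf, T', hc, fun j hj => ?_⟩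
    have h1 := Finset.mem_filter.1 (hT' hj)
    exact ⟨h1.2, hT j h1.1⟩
  -- the maximal separated subset
  set Sep : Finset (Finset (Fin d → ℤ)) := R.powerset.filter fun F =>
    ∀ i ∈ F, ∀ j ∈ F, i ≠ j → (r : ℝ) < ‖i - j‖ with hSep
  have hne : Sep.Nonempty := ⟨∅, by
    rw [hSep, Finset.mem_filter]
    exact ⟨Finset.empty_mem_powerset _, by simp⟩⟩
  obtain ⟨F, hF, hmax⟩ := Finset.exists_max_image Sep Finset.card hne
  rw [hSep, Finset.mem_filter, Finset.mem_powerset] at hF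
  have hFc : (F.card : ℝ) ≤ 2 * L ^ 2 * 4 ^ l := hκ f (hSub f hf) F hF.2 fun j hj =>
    (hT j (Finset.mem_filter.1 (hF.1 hj)).1).2
  have hnearF : ∀ j ∈ R, ∃ i ∈ F, ‖j - i‖ ≤ r := by
    intro j hj
    by_contra hcon
    push Not at hcon
    have hjF : j ∉ F := by
      intro h
      have := hcon j h
      rw [sub_self, norm_zero] at this
      have h0 : (0 : ℝ) ≤ r := Nat.cast_nonneg r
      linarith
    have h1 : insert j F ∈ Sep := by
      rw [hSep, Finset.mem_filter, Finset.mem_powerset]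
      refine ⟨Finset.insert_subset hj hF.1, ?_⟩
      intro a ha b hb hab
      rcases Finset.mem_insert.1 ha with ha1 | ha1
      · rcases Finset.mem_insert.1 hb with hb1 | hb1
        · exact absurd (ha1.trans hb1.symm) hab
        · rw [ha1]; exact hcon b hb1
      · rcases Finset.mem_insert.1 hb with hb1 | hb1
        · rw [hb1, norm_sub_rev]; exact hcon a ha1
        · exact hF.2 a ha1 b hb1 hab
    have h2 := hmax _ h1
    rw [Finset.card_insert_of_notMem hjF] at h2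
    omega
  have hRc : (R.card : ℝ) ≤ 2 * L ^ 2 * 4 ^ l * u₀ := by
    have h1 : R ⊆ F.biUnion fun i => R.filter fun j => ‖j - i‖ ≤ r := by
      intro j hj
      obtain ⟨i, hi, hij⟩ := hnearF j hj
      rw [Finset.mem_biUnion]
      exact ⟨i, hi, Finset.mem_filter.2 ⟨hj, hij⟩⟩
    have h2 : ∀ i ∈ F, (R.filter fun j => ‖j - i‖ ≤ r).card ≤ u₀ := by
      intro i hi
      by_contra hcon
      push Not at hcon
      obtain ⟨T', hT', hc⟩ := Finset.exists_subset_card_eq hcon.le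
      obtain ⟨k, hk, hik⟩ := (Finset.mem_filter.1 (hF.1 hi)).2
      refine hcrowd k hk ⟨i, hik, T', hc, fun j hj => ?_⟩
      have h3 := Finset.mem_filter.1 (hT' hj)
      exact ⟨h3.2, (hT j (Finset.mem_filter.1 h3.1).1).1⟩
    have h4 : R.card ≤ F.card * u₀ :=
      (Finset.card_le_card h1).trans (Finset.card_biUnion_le_card_mul _ _ _ h2)
    have h5 : (R.card : ℝ) ≤ F.card * u₀ := by exact_mod_cast h4
    exact h5.trans (mul_le_mul_of_nonneg_right hFc (Nat.cast_nonneg _))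
  have h6 : T.card ≤ (∑ k ∈ Finset.range (K * (l + 1)), u k) + R.card := by
    refine (Finset.card_le_card hcover).trans ((Finset.card_union_le _ _).trans ?_)
    refine Nat.add_le_add_right ?_ _
    exact Finset.card_biUnion_le.trans (Finset.sum_le_sum fun k hk => hnear k hk)
  have h7 : (T.card : ℝ) ≤ (∑ k ∈ Finset.range (K * (l + 1)), (u k : ℝ)) + R.card := by
    exact_mod_cast h6
  linarith


end

variable {Ω : Type*} [MeasurableSpace Ω] (P : Measure Ω) (A : (Fin d → ℤ) → Set Ω)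

theorem bad_prob_loc {S : Set H} {φ : EuclideanSpace ℝ (Fin d) → H} {p₀ L₀ γ : ℝ}
    (hS : Surf S φ p₀ L₀ γ) (p L : ℝ) (hp2 : 2 ≤ p) (hLL : L₀ ≤ L) (Kn : ℕ)
    (hc1 : ∀ g ∈ S, ∀ k l : ℕ, k < Kn * (l + 1) → ∀ J : Finset (Fin d → ℤ),
      (∀ j ∈ J, hit φ ((1 / 2) ^ (l + 1)) g j ∧ 1 + ‖j‖ < 2 ^ (k + 1)) →
      (J.card : ℝ) ≤ L * ((2 : ℝ) ^ (l + 1)) ^ p)
    (a c : ℝ) (ha : 0 < a) (ha1 : a ≤ 1) (hc : 1 ≤ c)
    (hA : ∀ T : Finset (Fin d → ℤ), P (⋂ j ∈ T, A j) ≤ ∏ j ∈ T, P (A j))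
    (hp : ∀ j, P (A j) ≤ ENNReal.ofReal (c * (1 + ‖j‖) ^ (-a))) :
    ∃ D : ℝ, 1 ≤ D ∧ ∀ k l : ℕ, k < Kn * (l + 1) →
      P (Bad A S φ k l ⌈D * (k + l + 1) * ((2 : ℝ) ^ l) ^ (p - a * (p - 2))⌉₊) ≤
        ENNReal.ofReal (Real.exp (-(k + l + 1))) := by
  classical
  obtain ⟨C, hC0, hC⟩ := class_net hS
  have hL : 1 ≤ L := hS.L1.trans hLL
  set q : ℝ := p - a * (p - 2) with hq
  have hq2 : 2 ≤ q := by
    have : a * (p - 2) ≤ 1 * (p - 2) := mul_le_mul_of_nonneg_right ha1 (by linarith)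
    rw [hq]; linarith
  set D : ℝ := C + 1 + Real.exp 2 * (c * L * 2 ^ q) with hD
  have hD1 : 1 ≤ D := by
    have : 0 ≤ Real.exp 2 * (c * L * 2 ^ q) := by positivity
    rw [hD]; linarith
  refine ⟨D, hD1, ?_⟩
  intro k l hkl
  obtain ⟨N, hN1, hN2, hN3⟩ := hC k l
  set u : ℕ := ⌈D * (k + l + 1) * ((2 : ℝ) ^ l) ^ q⌉₊ with hu
  have hule : D * (k + l + 1) * ((2 : ℝ) ^ l) ^ q ≤ u := Nat.le_ceil _
  have hk0 : (0 : ℝ) ≤ k := Nat.cast_nonneg k
  have hl0 : (0 : ℝ) ≤ l := Nat.cast_nonneg l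
  have h2l : (1 : ℝ) ≤ 2 ^ l := one_le_pow₀ (by norm_num)
  have hB1 : (1 : ℝ) ≤ ((2 : ℝ) ^ l) ^ q := Real.one_le_rpow h2l (by linarith)
  have hB4 : (4 : ℝ) ^ l ≤ ((2 : ℝ) ^ l) ^ q := by
    have h1 : (4 : ℝ) ^ l = ((2 : ℝ) ^ l) ^ (2 : ℝ) := by
      rw [Real.rpow_two, ← pow_mul, mul_comm l 2, pow_mul]
      norm_num
    rw [h1]
    exact Real.rpow_le_rpow_of_exponent_le h2l hq2
  set G : H → Finset (Fin d → ℤ) := fun g =>
    (Ann_finite (d := d) k).toFinset.filter fun j => hit φ ((1 / 2) ^ (l + 1)) g j with hG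
  set rho : ℝ := c * ((2 : ℝ) ^ k) ^ (-a) with hrho
  have hrho0 : 0 ≤ rho := by positivity
  -- the event is contained in a union over the net
  have hsub : Bad A S φ k l u ⊆ ⋃ g ∈ N, {ω | ∃ T ⊆ G g, T.card = u ∧ ∀ j ∈ T, ω ∈ A j} := by
    rintro ω ⟨f, hf, T, hTc, hT⟩
    obtain ⟨g, hg, hfg⟩ := hN3 f hf
    rw [mem_iUnion₂]
    refine ⟨g, hg, T, ?_, hTc, fun j hj => (hT j hj).2.1⟩
    intro j hj
    obtain ⟨h1, h2, x, hx, hxl⟩ := hT j hj
    rw [hG, Finset.mem_filter, Set.Finite.mem_toFinset]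
    refine ⟨h1, x, hx, ?_⟩
    have hxi : ∀ i, |x i| ≤ 2 ^ (k + 2) := by
      intro i
      have b1 := hx i
      have b2 := abs_coord j i
      have b3 := h1.2
      have b4 := abs_le.1 b2
      have b5 : (2 : ℝ) ^ (k + 2) = 2 * 2 ^ (k + 1) := by ring
      have b6 : (0 : ℝ) < 2 ^ (k + 1) := by positivity
      rw [abs_le]
      constructor <;> linarith
    have h3 := hfg x hxi
    have h4 : ‖inner ℂ (φ x) f‖ ≤ ‖inner ℂ (φ x) g‖ + ‖inner ℂ (φ x) (f - g)‖ := by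
      have : inner ℂ (φ x) f = inner ℂ (φ x) g + inner ℂ (φ x) (f - g) := by
        rw [inner_sub_right]; ring
      rw [this]
      exact norm_add_le _ _
    rw [pow_succ]
    linarith
  -- the cardinality
  have hcard : ∀ g ∈ N, Real.exp 2 * ((G g).card * rho) ≤ u := by
    intro g hg
    have h1 : ((G g).card : ℝ) ≤ L * ((2 : ℝ) ^ (l + 1)) ^ p := by
      exact hc1 g (hN1 g hg) k l hkl (G g) (fun j hj => by
        have := Finset.mem_filter.1 hj
        rw [Set.Finite.mem_toFinset] at this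
        exact ⟨this.2, this.1.2⟩)
    have h2 : ((G g).card : ℝ) ≤ L * (2 : ℝ) ^ k * ((2 : ℝ) ^ (l + 1)) ^ (2 : ℝ) := by
      have h := hS.c2 g (hS.sub g (hN1 g hg)) ((1 / 2) ^ (l + 1)) (by positivity)
        (pow_le_one₀ (by norm_num) (by norm_num)) k (G g) (fun j hj => by
          have := Finset.mem_filter.1 hj
          rw [Set.Finite.mem_toFinset] at this
          exact ⟨this.2, this.1.2⟩)
      refine h.trans (le_trans (le_of_eq ?_) (mul_le_mul_of_nonneg_right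
        (mul_le_mul_of_nonneg_right hLL (by positivity)) (by positivity)))
      rw [one_div_pow, one_div, Real.rpow_neg (by positivity), Real.inv_rpow (by positivity),
        inv_inv]
    have h3 := interp (G g).card L ((2 : ℝ) ^ k) ((2 : ℝ) ^ (l + 1)) a p (Nat.cast_nonneg _)
      (by linarith) (by positivity) (by positivity) ha.le ha1 h1 h2
    have h4 : ((2 : ℝ) ^ (l + 1)) ^ q = 2 ^ q * ((2 : ℝ) ^ l) ^ q := by
      rw [pow_succ, mul_comm, Real.mul_rpow (by norm_num) (by positivity)]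
    calc Real.exp 2 * ((G g).card * rho)
        = Real.exp 2 * c * ((G g).card * ((2 : ℝ) ^ k) ^ (-a)) := by rw [hrho]; ring
      _ ≤ Real.exp 2 * c * (L * ((2 : ℝ) ^ (l + 1)) ^ q) :=
          mul_le_mul_of_nonneg_left h3 (by positivity)
      _ = (Real.exp 2 * (c * L * 2 ^ q)) * 1 * ((2 : ℝ) ^ l) ^ q := by rw [h4]; ring
      _ ≤ D * (k + l + 1) * ((2 : ℝ) ^ l) ^ q := by
          refine mul_le_mul_of_nonneg_right ?_ (by linarith)
          refine mul_le_mul ?_ (by linarith) zero_le_one (by linarith)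
          rw [hD]; linarith
      _ ≤ u := hule
  refine (measure_mono hsub).trans ((measure_biUnion_finset_le _ _).trans ?_)
  have h5 : ∀ g ∈ N, P {ω | ∃ T ⊆ G g, T.card = u ∧ ∀ j ∈ T, ω ∈ A j} ≤
      ENNReal.ofReal (Real.exp (-u)) := by
    intro g hg
    refine (few P A hA (G g) rho (G g).card hrho0 le_rfl ?_ u).trans (ENNReal.ofReal_le_ofReal
      (fact_bound _ u (by positivity) (hcard g hg)))
    intro j hj
    have h6 := Finset.mem_filter.1 hj
    rw [Set.Finite.mem_toFinset] at h6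
    refine (hp j).trans (ENNReal.ofReal_le_ofReal ?_)
    rw [hrho]
    refine mul_le_mul_of_nonneg_left ?_ (by linarith)
    exact Real.rpow_le_rpow_of_nonpos (by positivity) h6.1.1 (by linarith)
  refine (Finset.sum_le_sum h5).trans ?_
  rw [Finset.sum_const, nsmul_eq_mul,
    show ((N.card : ℕ) : ℝ≥0∞) = ENNReal.ofReal (N.card : ℝ) by rw [ENNReal.ofReal_natCast],
    ← ENNReal.ofReal_mul (by positivity)]
  refine ENNReal.ofReal_le_ofReal ?_
  calc (N.card : ℝ) * Real.exp (-u) ≤ Real.exp (C * (k + l + 1) * 4 ^ l) *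
        Real.exp (-(D * (k + l + 1) * ((2 : ℝ) ^ l) ^ q)) := by
        refine mul_le_mul hN2 (Real.exp_le_exp.2 ?_) (by positivity) (by positivity)
        linarith
    _ = Real.exp (C * (k + l + 1) * 4 ^ l + -(D * (k + l + 1) * ((2 : ℝ) ^ l) ^ q)) := by
        rw [Real.exp_add]
    _ ≤ Real.exp (-(k + l + 1)) := by
        refine Real.exp_le_exp.2 ?_
        have h7 : C * (k + l + 1) * 4 ^ l ≤ C * (k + l + 1) * ((2 : ℝ) ^ l) ^ q :=
          mul_le_mul_of_nonneg_left hB4 (by positivity)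
        have h8 : (k + l + 1 : ℝ) * 1 ≤ (k + l + 1) * ((2 : ℝ) ^ l) ^ q :=
          mul_le_mul_of_nonneg_left hB1 (by positivity)
        have h9 : (C + 1) * (((k : ℝ) + l + 1) * ((2 : ℝ) ^ l) ^ q) ≤
            D * ((k + l + 1) * ((2 : ℝ) ^ l) ^ q) := by
          refine mul_le_mul_of_nonneg_right ?_ (by positivity)
          have : 0 ≤ Real.exp 2 * (c * L * 2 ^ q) := by positivity
          rw [hD]; linarith
        nlinarith


/-- **Random regions** from a local count -/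
theorem regions_loc {S : Set H} {φ : EuclideanSpace ℝ (Fin d) → H} {p₀ L γ : ℝ}
    (hS : Surf S φ p₀ L γ) (p : ℝ) (hp2 : 2 ≤ p)
    (hc1 : ∀ Kn : ℕ, ∃ L' : ℝ, L ≤ L' ∧ ∀ g ∈ S, ∀ k l : ℕ, k < Kn * (l + 1) →
      ∀ J : Finset (Fin d → ℤ),
      (∀ j ∈ J, hit φ ((1 / 2) ^ (l + 1)) g j ∧ 1 + ‖j‖ < 2 ^ (k + 1)) →
      (J.card : ℝ) ≤ L' * ((2 : ℝ) ^ (l + 1)) ^ p)
    (a c : ℝ) (ha : 0 < a) (ha1 : a ≤ 1) (hc : 1 ≤ c)
    (hA : ∀ T : Finset (Fin d → ℤ), P (⋂ j ∈ T, A j) ≤ ∏ j ∈ T, P (A j))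
    (hp : ∀ j, P (A j) ≤ ENNReal.ofReal (c * (1 + ‖j‖) ^ (-a))) :
    ∀ᵐ ω ∂P, ∀ r : ℝ, p - a * (p - 2) < r → ∃ C : ℝ≥0, ∀ f ∈ S,
      ∫⁻ x in ⋃ j ∈ {j | ω ∈ A j}, uq j, ‖inner ℂ (φ x) f‖ₑ ^ r ≤ C := by
  classical
  have hL := hS.L1
  set q : ℝ := p - a * (p - 2) with hq
  have hq2 : 2 ≤ q := by
    have : a * (p - 2) ≤ 1 * (p - 2) := mul_le_mul_of_nonneg_right ha1 (by linarith)
    rw [hq]; linarith
  obtain ⟨κ, hκ⟩ := sep_bound hS
  obtain ⟨K, u₀, hK⟩ := crowd_prob P A a c ha ha1 hc hA hp κ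
  obtain ⟨L', hLL, hL'⟩ := hc1 K
  obtain ⟨D, hD1, hD⟩ := bad_prob_loc P A hS p L' hp2 hLL K hL' a c ha ha1 hc hA hp
  rw [← hq] at hD
  set u : ℕ → ℕ → ℕ := fun k l => ⌈D * (k + l + 1) * ((2 : ℝ) ^ l) ^ q⌉₊ with hu
  set E : ℕ → Set Ω := fun l => ⋃ k, ({ω | k < K * (l + 1) ∧ ω ∈ Bad A S φ k l (u k l)} ∪
    {ω | K * (l + 1) ≤ k ∧ ω ∈ Crowd A k (2 ^ (κ * (l + 1))) u₀}) with hE
  have hPE : ∀ l, P (E l) ≤ 4 * (2⁻¹ : ℝ≥0∞) ^ l := by
    intro l
    have h1 : ∀ k, P ({ω | k < K * (l + 1) ∧ ω ∈ Bad A S φ k l (u k l)} ∪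
        {ω | K * (l + 1) ≤ k ∧ ω ∈ Crowd A k (2 ^ (κ * (l + 1))) u₀}) ≤
        2 * ((2⁻¹ : ℝ≥0∞) ^ l * (2⁻¹ : ℝ≥0∞) ^ k) := by
      intro k
      refine (measure_union_le _ _).trans ?_
      rw [two_mul, ← pow_add, add_comm l k, ← half_pow]
      refine add_le_add ?_ ?_
      · by_cases hkl : k < K * (l + 1)
        swap
        · refine le_trans (measure_mono (t := ∅) ?_) (by simp)
          exact fun ω hω => hkl hω.1
        refine le_trans (measure_mono (t := Bad A S φ k l (u k l)) fun ω hω => hω.2)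
          ((hD k l hkl).trans (ENNReal.ofReal_le_ofReal ?_))
        have h2 : Real.exp (-1) ≤ 1 / 2 := by
          rw [Real.exp_neg, one_div]
          refine inv_anti₀ (by norm_num) ?_
          have := Real.add_one_le_exp (1 : ℝ)
          linarith
        calc Real.exp (-((k : ℝ) + l + 1)) ≤ Real.exp (((k + l : ℕ) : ℝ) * (-1)) := by
              refine Real.exp_le_exp.2 ?_
              push_cast
              linarith
          _ = Real.exp (-1) ^ (k + l) := by rw [Real.exp_nat_mul]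
          _ ≤ (1 / 2) ^ (k + l) := pow_le_pow_left₀ (Real.exp_pos _).le h2 _
      · by_cases h : K * (l + 1) ≤ k
        · refine le_trans (measure_mono ?_) (hK k l h)
          exact fun ω hω => hω.2
        · refine le_trans (measure_mono (t := ∅) ?_) (by simp)
          exact fun ω hω => h hω.1
    calc P (E l) ≤ ∑' k, P ({ω | k < K * (l + 1) ∧ ω ∈ Bad A S φ k l (u k l)} ∪
          {ω | K * (l + 1) ≤ k ∧ ω ∈ Crowd A k (2 ^ (κ * (l + 1))) u₀}) := measure_iUnion_le _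
      _ ≤ ∑' k : ℕ, 2 * ((2⁻¹ : ℝ≥0∞) ^ l * (2⁻¹ : ℝ≥0∞) ^ k) := ENNReal.tsum_le_tsum h1
      _ = 4 * (2⁻¹ : ℝ≥0∞) ^ l := by
          rw [ENNReal.tsum_mul_left, ENNReal.tsum_mul_left, ENNReal.tsum_geometric,
            ENNReal.one_sub_inv_two, inv_inv]
          ring
  have hsum : (∑' l, P (E l)) ≠ ∞ := by
    refine ne_top_of_le_ne_top ?_ (ENNReal.tsum_le_tsum hPE)
    rw [ENNReal.tsum_mul_left, ENNReal.tsum_geometric, ENNReal.one_sub_inv_two, inv_inv]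
    exact ENNReal.mul_ne_top (by norm_num) (by norm_num)
  filter_upwards [ae_eventually_notMem hsum] with ω hω
  obtain ⟨l₀, hl₀⟩ := eventually_atTop.1 hω
  -- the count
  set C₁ : ℝ := K * ((D + 1) * (K + 1)) + 2 * L ^ 2 * u₀ with hC₁
  have hC₁0 : 0 ≤ C₁ := by positivity
  set Bd : ℕ → ℝ := fun l => C₁ * ((l : ℝ) + 1) ^ 2 * ((2 : ℝ) ^ l) ^ q with hBd
  have hcount : ∀ l, l₀ ≤ l → ∀ f ∈ S, ∀ T : Finset (Fin d → ℤ),
      (∀ j ∈ T, ω ∈ A j ∧ hit φ ((1 / 2) ^ l) f j) → (T.card : ℝ) ≤ Bd l := by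
    intro l hl f hf T hT
    have h1 := hl₀ l hl
    rw [hE, mem_iUnion] at h1
    push Not at h1
    have h2 := det_count_loc A hS.sub κ K u₀ l (fun k => u k l) (hκ l) ω
      (fun k hkl hk => h1 k (Or.inl ⟨hkl, hk⟩)) (fun k hk hk2 => h1 k (Or.inr ⟨hk, hk2⟩)) f hf T hT
    refine h2.trans ?_
    have hl0 : (0 : ℝ) ≤ l := Nat.cast_nonneg l
    have hK0 : (0 : ℝ) ≤ K := Nat.cast_nonneg K
    have h2l : (1 : ℝ) ≤ 2 ^ l := one_le_pow₀ (by norm_num)
    have hB1 : (1 : ℝ) ≤ ((2 : ℝ) ^ l) ^ q := Real.one_le_rpow h2l (by linarith)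
    have hB4 : (4 : ℝ) ^ l ≤ ((2 : ℝ) ^ l) ^ q := by
      have h1 : (4 : ℝ) ^ l = ((2 : ℝ) ^ l) ^ (2 : ℝ) := by
        rw [Real.rpow_two, ← pow_mul, mul_comm l 2, pow_mul]
        norm_num
      rw [h1]
      exact Real.rpow_le_rpow_of_exponent_le h2l hq2
    set B : ℝ := ((2 : ℝ) ^ l) ^ q with hB
    have h3 : ∀ k ∈ Finset.range (K * (l + 1)), (u k l : ℝ) ≤ (D + 1) * (K + 1) * (l + 1) * B := by
      intro k hk
      rw [Finset.mem_range] at hk
      have h4 : (k : ℝ) ≤ K * (l + 1) := by exact_mod_cast hk.le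
      have h5 : (u k l : ℝ) ≤ D * (k + l + 1) * B + 1 := by
        simp only [hu]
        exact (Nat.ceil_lt_add_one (by positivity)).le
      have h6 : D * (k + l + 1) * B ≤ D * ((K + 1) * (l + 1)) * B := by
        refine mul_le_mul_of_nonneg_right (mul_le_mul_of_nonneg_left ?_ (by linarith)) (by linarith)
        linarith
      have h7 : (1 : ℝ) ≤ (K + 1) * (l + 1) * B := by
        have a1 : (1 : ℝ) ≤ K + 1 := by linarith
        have a2 : (1 : ℝ) ≤ l + 1 := by linarith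
        have a3 : (1 : ℝ) ≤ (K + 1) * (l + 1) := one_le_mul_of_one_le_of_one_le a1 a2
        exact one_le_mul_of_one_le_of_one_le a3 hB1
      nlinarith
    have h8 : (∑ k ∈ Finset.range (K * (l + 1)), (u k l : ℝ)) ≤
        K * (l + 1) * ((D + 1) * (K + 1) * (l + 1) * B) := by
      refine (Finset.sum_le_sum h3).trans (le_of_eq ?_)
      rw [Finset.sum_const, Finset.card_range, nsmul_eq_mul]
      push_cast
      ring
    have h9 : 2 * L ^ 2 * 4 ^ l * u₀ ≤ 2 * L ^ 2 * u₀ * ((l : ℝ) + 1) ^ 2 * B := by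
      have a1 : (1 : ℝ) ≤ ((l : ℝ) + 1) ^ 2 := by nlinarith
      have a2 : (4 : ℝ) ^ l ≤ ((l : ℝ) + 1) ^ 2 * B := by nlinarith
      calc 2 * L ^ 2 * 4 ^ l * u₀ = 2 * L ^ 2 * u₀ * 4 ^ l := by ring
        _ ≤ 2 * L ^ 2 * u₀ * (((l : ℝ) + 1) ^ 2 * B) :=
            mul_le_mul_of_nonneg_left a2 (by positivity)
        _ = _ := by ring
    calc (∑ k ∈ Finset.range (K * (l + 1)), (u k l : ℝ)) + 2 * L ^ 2 * 4 ^ l * u₀
        ≤ K * (l + 1) * ((D + 1) * (K + 1) * (l + 1) * B) +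
          2 * L ^ 2 * u₀ * ((l : ℝ) + 1) ^ 2 * B := add_le_add h8 h9
      _ = Bd l := by simp only [hBd, hC₁]; ring
  intro r hr
  have hr0 : 0 < r := by linarith
  -- the constant
  set Z : ℝ≥0∞ := ENNReal.ofReal (L ^ r * Bd l₀) +
    ∑' i : ℕ, ENNReal.ofReal (((1 / 2 : ℝ) ^ (i + l₀)) ^ r * Bd (i + l₀ + 1)) with hZd
  have hZt : Z ≠ ∞ := by
    rw [hZd]
    refine ENNReal.add_ne_top.2 ⟨ENNReal.ofReal_ne_top, ?_⟩
    refine Summable.tsum_ofReal_ne_top ?_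
    have h1 := (summable_nat_add_iff l₀).2 (summ q r C₁ hr)
    refine h1.congr fun i => ?_
    simp only [hBd]
    push_cast
    rfl
  refine ⟨Z.toNNReal, ?_⟩
  intro f hf
  rw [ENNReal.coe_toNNReal hZt]
  change ∫⁻ x in ⋃ j ∈ {j | ω ∈ A j}, uq j, ‖inner ℂ (φ x) f‖ₑ ^ r ≤ Z
  set U : ℕ → Set (Fin d → ℤ) := fun l => {j | ω ∈ A j ∧ hit φ ((1 / 2) ^ l) f j} with hU
  have hUf : ∀ l, l₀ ≤ l → (U l).Finite := by
    intro l hl
    by_contra hcon
    obtain ⟨N, hN⟩ := exists_nat_gt (Bd l)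
    obtain ⟨T, hT1, hT2⟩ := Set.Infinite.exists_subset_card_eq hcon N
    have := hcount l hl f hf T (fun j hj => hT1 (Finset.mem_coe.2 hj))
    rw [hT2] at this
    linarith
  set W : ℕ → Set (EuclideanSpace ℝ (Fin d)) := fun l => ⋃ j ∈ U l, uq j with hW
  have hWm : ∀ l, MeasurableSet (W l) := fun l =>
    MeasurableSet.biUnion (Set.to_countable _) fun j _ => uq_meas j
  have hWv : ∀ l, l₀ ≤ l → volume (W l) ≤ ENNReal.ofReal (Bd l) := by
    intro l hl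
    have h1 : W l = ⋃ j ∈ (hUf l hl).toFinset, uq j := by
      simp only [hW]
      ext x
      simp
    rw [h1]
    refine (measure_biUnion_finset_le _ _).trans ?_
    simp_rw [uq_vol]
    rw [Finset.sum_const, nsmul_eq_mul, mul_one, ← ENNReal.ofReal_natCast]
    refine ENNReal.ofReal_le_ofReal (hcount l hl f hf (hUf l hl).toFinset fun j hj => ?_)
    exact (Set.Finite.mem_toFinset (hUf l hl)).1 hj
  have hΩm : MeasurableSet (⋃ j ∈ {j | ω ∈ A j}, uq j) :=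
    MeasurableSet.biUnion (Set.to_countable _) fun j _ => uq_meas j
  have hpt : ∀ x, (⋃ j ∈ {j | ω ∈ A j}, uq j).indicator
      (fun x => ‖inner ℂ (φ x) f‖ₑ ^ r) x ≤
      (W l₀).indicator (fun _ => ENNReal.ofReal (L ^ r)) x +
        ∑' i : ℕ, (W (i + l₀ + 1)).indicator
          (fun _ => ENNReal.ofReal (((1 / 2 : ℝ) ^ (i + l₀)) ^ r)) x := by
    intro x
    by_cases hx : x ∈ ⋃ j ∈ {j | ω ∈ A j}, uq j
    swap
    · rw [indicator_of_notMem hx]; exact zero_le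
    rw [indicator_of_mem hx]
    rw [mem_iUnion₂] at hx
    obtain ⟨j, hj, hxj⟩ := hx
    set t : ℝ := ‖inner ℂ (φ x) f‖ with ht
    have ht0 : 0 ≤ t := norm_nonneg _
    have hte : ‖inner ℂ (φ x) f‖ₑ ^ r = ENNReal.ofReal (t ^ r) := by
      rw [← ofReal_norm, ENNReal.ofReal_rpow_of_nonneg ht0 hr0.le]
    rw [hte]
    have htL : t ≤ L := by
      have h1 := norm_inner_le_norm (𝕜 := ℂ) (φ x) f
      have h2 := hS.bd x
      calc t ≤ ‖φ x‖ * ‖f‖ := h1
        _ ≤ L * 1 := mul_le_mul h2 (hS.sub f hf) (norm_nonneg _) (by linarith)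
        _ = L := mul_one L
    rcases ht0.eq_or_lt with h0 | h0
    · rw [← h0, Real.zero_rpow hr0.ne', ENNReal.ofReal_zero]
      exact zero_le
    rcases le_or_gt ((1 / 2 : ℝ) ^ l₀) t with h1 | h1
    · have h2 : x ∈ W l₀ := by
        simp only [hW]
        rw [mem_iUnion₂]
        exact ⟨j, ⟨hj, x, hxj, h1⟩, hxj⟩
      rw [indicator_of_mem h2]
      refine le_add_right (ENNReal.ofReal_le_ofReal ?_)
      exact Real.rpow_le_rpow ht0 htL hr0.le
    · have ht1 : t ≤ 1 := h1.le.trans (pow_le_one₀ (by norm_num) (by norm_num))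
      obtain ⟨n, hn1, hn2⟩ := exists_nat_pow_near_of_lt_one h0 ht1 (y := (1 / 2 : ℝ))
        (by norm_num) (by norm_num)
      have hn : l₀ ≤ n := by
        by_contra hcon
        push Not at hcon
        have h3 : (1 / 2 : ℝ) ^ l₀ ≤ (1 / 2) ^ (n + 1) :=
          pow_le_pow_of_le_one (by norm_num) (by norm_num) (by omega)
        linarith
      obtain ⟨i, rfl⟩ : ∃ i, n = i + l₀ := ⟨n - l₀, by omega⟩
      have h2 : x ∈ W (i + l₀ + 1) := by
        simp only [hW]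
        rw [mem_iUnion₂]
        exact ⟨j, ⟨hj, x, hxj, hn1.le⟩, hxj⟩
      refine le_add_left (le_trans ?_ (ENNReal.le_tsum i))
      rw [indicator_of_mem h2]
      refine ENNReal.ofReal_le_ofReal ?_
      exact Real.rpow_le_rpow ht0 hn2 hr0.le
  rw [← lintegral_indicator hΩm]
  refine (lintegral_mono hpt).trans ?_
  rw [lintegral_add_left (measurable_const.indicator (hWm l₀)),
    lintegral_tsum (fun i => (measurable_const.indicator (hWm _)).aemeasurable)]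
  simp_rw [lintegral_indicator_const (hWm _)]
  rw [hZd]
  refine add_le_add ?_ (ENNReal.tsum_le_tsum fun i => ?_)
  · rw [ENNReal.ofReal_mul (by positivity)]
    exact mul_le_mul' le_rfl (hWv l₀ le_rfl)
  · rw [ENNReal.ofReal_mul (by positivity)]
    exact mul_le_mul' le_rfl (hWv _ (by omega))


end Pool.Agent.N248.RL
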