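import Mathlib
import Pool.Agent.N248.RR.H2
import Pool.Agent.N248.RL.A
set_option autoImplicit false

/-! Random regions: transference from a local estimate with small losses, for surfaces. -/

namespace Pool.Agent.N248.RL

open MeasureTheory Set ProbabilityTheory
open scoped ENNReal NNReal RealInnerProductSpace ComplexConjugate
open Pool.Agent.N248.RR

theorem surf_mono {d : ℕ} {H : Type*} [NormedAddCommGroup H] [InnerProductSpace ℂ H]
    {S S' : Set H} {φ : EuclideanSpace ℝ (Fin d) → H} {p L γ : ℝ} (h : Surf S φ p L γ)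
    (hs : S' ⊆ S) : Surf S' φ p L γ :=
  ⟨h.L1, h.p2, h.g0, h.bd, h.lip, fun f hf => h.sub f (hs hf), fun f hf => h.c1 f (hs hf), h.c2,
    h.dec⟩

theorem norm_le_coord {d : ℕ} (x : EuclideanSpace ℝ (Fin d)) (b : ℝ) (hb : 0 ≤ b)
    (hx : ∀ i, |x i| ≤ b) : ‖x‖ ≤ d * b := by
  have h1 : ‖x‖ ^ 2 ≤ (d * b) ^ 2 := by
    rw [EuclideanSpace.norm_sq_eq]
    have h2 : ∑ i : Fin d, ‖x i‖ ^ 2 ≤ ∑ i : Fin d, b ^ 2 := by
      refine Finset.sum_le_sum fun i _ => ?_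
      rw [Real.norm_eq_abs]
      exact pow_le_pow_left₀ (abs_nonneg _) (hx i) 2
    rw [Finset.sum_const, Finset.card_univ, Fintype.card_fin, nsmul_eq_mul] at h2
    refine h2.trans ?_
    rw [mul_pow]
    refine mul_le_mul_of_nonneg_right ?_ (by positivity)
    rcases Nat.eq_zero_or_pos d with h | h
    · rw [h]; simp
    · have : (1 : ℝ) ≤ d := by exact_mod_cast h
      nlinarith
  exact (pow_le_pow_iff_left₀ (norm_nonneg _) (by positivity) (by norm_num)).1 h1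

variable {d : ℕ} {Y : Type*} [MeasurableSpace Y] (μ : Measure Y) [IsFiniteMeasure μ]
  (Φ : Y → EuclideanSpace ℝ (Fin d)) (hΦ : Measurable Φ)
include hΦ

/-- the hypotheses on the surface, for the unit ball -/
theorem surf_ball {m : ℕ} (e : Fin m → Fin d) (L₀ g γ : ℝ) (hL₀ : 0 ≤ L₀) (hg : 0 < g)
    (hγ : 0 < γ) (hC : CEnergy μ Φ hΦ e L₀) (R : ℝ) (hR0 : 0 ≤ R) (hR : ∀ᵐ y ∂μ, ‖Φ y‖ ≤ R)
    (hdec : ∀ x (t : Fin m), 1 ≤ |x (e t)| →
      ‖∫ y, ex ⟪Φ y, x⟫ ∂μ‖ ≤ L₀ * |x (e t)| ^ (-g))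
    (hdec2 : ∀ x, x ≠ 0 → ‖∫ y, ex ⟪Φ y, x⟫ ∂μ‖ ≤ L₀ * ‖x‖ ^ (-γ)) :
    ∃ L' : ℝ, Surf (Metric.closedBall 0 1) (ps μ Φ hΦ) (2 + 2 / g) L' γ := by
  obtain ⟨L, hL0, hE⟩ := energy_of μ Φ hΦ e L₀ hL₀ hC R hR0 hR
  set L₁ : ℝ := 1 + L + L₀ + ‖ps μ Φ hΦ 0‖ + R * ‖ps μ Φ hΦ 0‖ with hL₁
  have hn0 : 0 ≤ ‖ps μ Φ hΦ 0‖ := norm_nonneg _
  have hn1 : 0 ≤ R * ‖ps μ Φ hΦ 0‖ := by positivity
  have hpn : ∀ x, ‖ps μ Φ hΦ x‖ = ‖ps μ Φ hΦ 0‖ := by
    intro x
    have h1 := ps_norm μ Φ hΦ x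
    have h2 := ps_norm μ Φ hΦ 0
    rw [← h2] at h1
    exact (pow_left_inj₀ (norm_nonneg _) (norm_nonneg _) (by norm_num)).1 h1
  exact surf_mk e (ps μ Φ hΦ) L₁ g γ (by linarith) hg hγ
    (fun x => by rw [hpn]; linarith)
    (fun x y => (ps_sub μ Φ hΦ R hR0 hR x y).trans
      (mul_le_mul_of_nonneg_right (by linarith) (norm_nonneg _)))
    (by
      intro f τ hτ J s hJ x hx
      refine (hE f τ hτ J s hJ x hx).trans ?_
      refine mul_le_mul_of_nonneg_right ?_ (by positivity)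
      exact mul_le_mul_of_nonneg_right (by linarith) (Nat.cast_nonneg _))
    (fun x y t ht => by
      rw [ps_inner_ps]
      refine (hdec (x - y) t ht).trans ?_
      exact mul_le_mul_of_nonneg_right (by linarith) (by positivity))
    (fun x y hxy => by
      rw [ps_inner_ps]
      refine (hdec2 (x - y) (sub_ne_zero.2 hxy)).trans ?_
      exact mul_le_mul_of_nonneg_right (by linarith) (by positivity))

/-- counting from an estimate in `L^p` -/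
theorem count_loc (S : Set (Lp ℂ 2 μ))
    (hsolid : ∀ f ∈ S, ∀ f' : Lp ℂ 2 μ, (∀ᵐ y ∂μ, ‖f' y‖ ≤ ‖f y‖) → f' ∈ S)
    (p : ℝ) (hp : 1 < p)
    (R : ℝ) (hR0 : 0 ≤ R) (hR : ∀ᵐ y ∂μ, ‖Φ y‖ ≤ R) :
    ∃ L : ℝ, 0 ≤ L ∧ ∀ (B : Set (EuclideanSpace ℝ (Fin d))) (M : ℝ), 0 ≤ M →
      (∀ f ∈ S, ∫⁻ x in B, ‖inner ℂ (ps μ Φ hΦ x) f‖ₑ ^ p ≤ ENNReal.ofReal M) →
      ∀ f ∈ S, ∀ lam : ℝ, 0 < lam → ∀ J : Finset (Fin d → ℤ),
      (∀ j ∈ J, hit (ps μ Φ hΦ) lam f j ∧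
        ∀ o ∈ (Fintype.piFinset fun i => Finset.Icc ((0 : Fin d → ℤ) i - (1 : ℕ))
        ((0 : Fin d → ℤ) i + (1 : ℕ)) : Finset (Fin d → ℤ)), uq (j + o) ⊆ B) →
      (J.card : ℝ) ≤ L * M * lam ^ (-p) := by
  classical
  have hp0 : 0 < p := by linarith
  set ε : ℝ := 1 / (R + 1) with hε
  have hε0 : 0 < ε := by positivity
  have hε1 : ε ≤ 1 := by rw [hε, div_le_one (by linarith)]; linarith
  have hεR : R * ε ≤ 1 := by
    rw [hε, mul_one_div, div_le_one (by linarith)]; linarith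
  set D : Set (EuclideanSpace ℝ (Fin d)) := Metric.closedBall 0 ε with hD
  have hDt : volume D ≠ ∞ := measure_closedBall_lt_top.ne
  have hv : 0 < volume.real D := by
    rw [Measure.real]
    exact ENNReal.toReal_pos (Metric.measure_closedBall_pos volume 0 hε0).ne' hDt
  set v : ℝ := volume.real D with hvd
  set O : Finset (Fin d → ℤ) := Fintype.piFinset fun i =>
    Finset.Icc ((0 : Fin d → ℤ) i - (1 : ℕ)) ((0 : Fin d → ℤ) i + (1 : ℕ)) with hO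
  set K : ℝ≥0∞ := (volume D ^ (1 / Real.conjExponent p)) ^ p with hK
  have hq0 : 0 < Real.conjExponent p :=
    (Real.HolderConjugate.conjExponent hp).symm.pos
  have hKt : K ≠ ∞ := by
    refine ENNReal.rpow_ne_top_of_nonneg hp0.le ?_
    exact ENNReal.rpow_ne_top_of_nonneg (by positivity) hDt
  set T₀ : ℝ≥0∞ := K * (O.card * ENNReal.ofReal (2 / v) ^ p) with hT₀
  have hTt₀ : T₀ ≠ ∞ := by
    refine ENNReal.mul_ne_top hKt (ENNReal.mul_ne_top (ENNReal.natCast_ne_top _) ?_)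
    exact ENNReal.rpow_ne_top_of_nonneg hp0.le ENNReal.ofReal_ne_top
  refine ⟨T₀.toReal, ENNReal.toReal_nonneg, ?_⟩
  intro B M hM0 hM f hf lam hlam J hJB
  set T : ℝ≥0∞ := T₀ * ENNReal.ofReal M with hT
  have hTt : T ≠ ∞ := ENNReal.mul_ne_top hTt₀ ENNReal.ofReal_ne_top
  have hTr : T.toReal = T₀.toReal * M := by
    rw [hT, ENNReal.toReal_mul, ENNReal.toReal_ofReal hM0]
  have hJ : ∀ j ∈ J, hit (ps μ Φ hΦ) lam f j := fun j hj => (hJB j hj).1
  choose! x hx1 hx2 using hJ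
  obtain ⟨f', hf'0, hf'2⟩ := reproduce μ Φ hΦ R hR0 hR ε hε0 hεR f
  set F : EuclideanSpace ℝ (Fin d) → ℝ≥0∞ := fun w => ‖inner ℂ (ps μ Φ hΦ w) f'‖ₑ ^ p with hF
  have hFm : Measurable F := (ps_meas μ Φ hΦ f').enorm.pow_const p
  have hFint : ∫⁻ w in B, F w ≤ ENNReal.ofReal (2 / v) ^ p * ENNReal.ofReal M := by
    set f'' : Lp ℂ 2 μ := ((v / 2 : ℝ) : ℂ) • f' with hf''
    have h1 : f'' ∈ S := by
      refine hsolid f hf f'' ?_
      filter_upwards [hf'0, Lp.coeFn_smul ((v / 2 : ℝ) : ℂ) f'] with y h2 h3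
      rw [h3, Pi.smul_apply, norm_smul, Complex.norm_real, Real.norm_eq_abs,
        abs_of_pos (by positivity)]
      calc v / 2 * ‖f' y‖ ≤ v / 2 * (2 / v * ‖f y‖) :=
            mul_le_mul_of_nonneg_left h2 (by positivity)
        _ = ‖f y‖ := by field_simp
    have h4 := hM f'' h1
    have h5 : ∀ w, F w = ENNReal.ofReal (2 / v) ^ p * ‖inner ℂ (ps μ Φ hΦ w) f''‖ₑ ^ p := by
      intro w
      rw [hf'', inner_smul_right, enorm_mul, ← ENNReal.mul_rpow_of_nonneg _ _ hp0.le, ← mul_assoc]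
      have h6 : ENNReal.ofReal (2 / v) * ‖((v / 2 : ℝ) : ℂ)‖ₑ = 1 := by
        rw [← ofReal_norm, Complex.norm_real, Real.norm_eq_abs, abs_of_pos (by positivity),
          ← ENNReal.ofReal_mul (by positivity)]
        rw [show 2 / v * (v / 2) = 1 by field_simp]
        simp
      rw [h6, one_mul]
    simp_rw [h5]
    rw [lintegral_const_mul' _ _ (ENNReal.rpow_ne_top_of_nonneg hp0.le ENNReal.ofReal_ne_top)]
    exact mul_le_mul' le_rfl h4
  have hpt : ∀ j ∈ J, ENNReal.ofReal lam ^ p ≤ K * ∑ o ∈ O, ∫⁻ w in uq (j + o), F w := by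
    intro j hj
    have a1 : ENNReal.ofReal lam ≤ ∫⁻ z in D, ‖inner ℂ (ps μ Φ hΦ (x j + z)) f'‖ₑ := by
      calc ENNReal.ofReal lam ≤ ENNReal.ofReal ‖inner ℂ (ps μ Φ hΦ (x j)) f‖ :=
            ENNReal.ofReal_le_ofReal (hx2 j hj)
        _ = ‖∫ z in D, inner ℂ (ps μ Φ hΦ (x j + z)) f'‖ₑ := by rw [ofReal_norm, hf'2]
        _ ≤ _ := enorm_integral_le_lintegral_enorm _
    refine (ENNReal.rpow_le_rpow a1 hp0.le).trans ?_
    have a2 := holder_const (volume.restrict D) p hp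
      (fun z => ‖inner ℂ (ps μ Φ hΦ (x j + z)) f'‖ₑ)
      ((ps_meas μ Φ hΦ f').comp (measurable_const_add (x j))).enorm.aemeasurable
    rw [Measure.restrict_apply_univ] at a2
    refine a2.trans (mul_le_mul' le_rfl ?_)
    exact near_cubes F ε hε1 j (x j) (hx1 j hj)
  have hsum : (J.card : ℝ≥0∞) * ENNReal.ofReal lam ^ p ≤ T := by
    calc (J.card : ℝ≥0∞) * ENNReal.ofReal lam ^ p = ∑ j ∈ J, ENNReal.ofReal lam ^ p := by
          rw [Finset.sum_const, nsmul_eq_mul]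
      _ ≤ ∑ j ∈ J, K * ∑ o ∈ O, ∫⁻ w in uq (j + o), F w := Finset.sum_le_sum hpt
      _ = K * ∑ o ∈ O, ∑ j ∈ J, ∫⁻ w in uq (j + o), F w := by
          rw [← Finset.mul_sum, Finset.sum_comm]
      _ ≤ K * ∑ o ∈ O, (ENNReal.ofReal (2 / v) ^ p * ENNReal.ofReal M) := by
          refine mul_le_mul' le_rfl (Finset.sum_le_sum fun o ho => ?_)
          rw [← lintegral_biUnion_finset (fun j _ k _ hjk => uq_disj _ _ (fun h => hjk
            (add_right_cancel h))) (fun j _ => uq_meas _)]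
          exact (lintegral_mono_set (iUnion₂_subset fun j hj => (hJB j hj).2 o ho)).trans hFint
      _ = T := by rw [Finset.sum_const, nsmul_eq_mul, hT, hT₀]; ring
  have hlp : 0 < lam ^ p := Real.rpow_pos_of_pos hlam p
  have h7 : (J.card : ℝ) * lam ^ p ≤ T.toReal := by
    rw [ENNReal.ofReal_rpow_of_pos hlam, ← ENNReal.ofReal_natCast,
      ← ENNReal.ofReal_mul (Nat.cast_nonneg _)] at hsum
    exact (ENNReal.ofReal_le_iff_le_toReal hTt).1 hsum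
  rw [Real.rpow_neg hlam.le, ← div_eq_mul_inv, le_div_iff₀ hlp, ← hTr]
  exact h7


/-- **Transference from a local estimate** -/
theorem class_loc {p₀ L γ : ℝ} (hS : Surf (Metric.closedBall 0 1) (ps μ Φ hΦ) p₀ L γ)
    (R : ℝ) (hR0 : 0 ≤ R) (hR : ∀ᵐ y ∂μ, ‖Φ y‖ ≤ R)
    (S : Set (Lp ℂ 2 μ)) (hsub : ∀ f ∈ S, ‖f‖ ≤ 1)
    (hsolid : ∀ f ∈ S, ∀ f' : Lp ℂ 2 μ, (∀ᵐ y ∂μ, ‖f' y‖ ≤ ‖f y‖) → f' ∈ S)
    (p : ℝ) (hp2 : 2 ≤ p)
    (hM : ∀ ε : ℝ, 0 < ε → ∃ M : ℝ, 0 ≤ M ∧ ∀ R' : ℝ, 1 ≤ R' → ∀ f ∈ S,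
      ∫⁻ x in Metric.ball 0 R', ‖inner ℂ (ps μ Φ hΦ x) f‖ₑ ^ p ≤ ENNReal.ofReal (M * R' ^ ε))
    {Ω : Type*} [MeasurableSpace Ω] (P : Measure Ω) (A : (Fin d → ℤ) → Set Ω) (a c : ℝ)
    (ha : 0 < a) (ha1 : a ≤ 1) (hc : 1 ≤ c)
    (hA : ∀ T : Finset (Fin d → ℤ), P (⋂ j ∈ T, A j) ≤ ∏ j ∈ T, P (A j))
    (hp : ∀ j, P (A j) ≤ ENNReal.ofReal (c * (1 + ‖j‖) ^ (-a))) :
    ∀ᵐ ω ∂P, ∀ r : ℝ, p - a * (p - 2) < r → ∃ C : ℝ≥0, ∀ f ∈ S,
      ∫⁻ x in ⋃ j ∈ {j | ω ∈ A j}, uq j, ‖inner ℂ (ps μ Φ hΦ x) f‖ₑ ^ r ≤ C := by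
  obtain ⟨L0, hL0, hcount⟩ := count_loc μ Φ hΦ S hsolid p (by linarith) R hR0 hR
  have hS' : Surf S (ps μ Φ hΦ) p₀ L γ :=
    surf_mono hS fun f hf => mem_closedBall_zero_iff.2 (hsub f hf)
  have hN : ∀ N : ℕ, ∀ᵐ ω ∂P, ∀ r : ℝ, (p + 1 / ((N : ℝ) + 1)) -
      a * ((p + 1 / ((N : ℝ) + 1)) - 2) < r → ∃ C : ℝ≥0, ∀ f ∈ S,
      ∫⁻ x in ⋃ j ∈ {j | ω ∈ A j}, uq j, ‖inner ℂ (ps μ Φ hΦ x) f‖ₑ ^ r ≤ C := by
    intro N
    set η : ℝ := 1 / ((N : ℝ) + 1) with hη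
    have hη0 : 0 < η := by positivity
    refine regions_loc P A hS' (p + η) (by linarith) (fun Kn => ?_) a c ha ha1 hc hA hp
    set ε : ℝ := η / ((Kn : ℝ) + 1) with hε
    have hε0 : 0 < ε := by positivity
    have hεη : ε ≤ η := div_le_self hη0.le (by
      have : (0 : ℝ) ≤ Kn := Nat.cast_nonneg _
      linarith)
    have hεK : ε * Kn ≤ η := by
      rw [hε, div_mul_eq_mul_div, div_le_iff₀ (by positivity)]
      have : (0 : ℝ) ≤ η := hη0.le
      nlinarith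
    obtain ⟨M, hM0, hMM⟩ := hM ε hε0
    set D : ℝ := 4 * ((d : ℝ) + 1) with hD
    have hD1 : 1 ≤ D := by
      have : (0 : ℝ) ≤ d := Nat.cast_nonneg _
      rw [hD]; linarith
    refine ⟨L + L0 * M * D ^ η, by
      have : 0 ≤ L0 * M * D ^ η := by positivity
      linarith, ?_⟩
    intro g hg k l hkl J hJ
    have hL1 : 1 ≤ L := hS.L1
    have h2l : (1 : ℝ) ≤ 2 ^ (l + 1) := one_le_pow₀ (by norm_num)
    have h2k : (1 : ℝ) ≤ 2 ^ k := one_le_pow₀ (by norm_num)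
    have h1 := hcount (Metric.ball 0 (D * 2 ^ k)) (M * (D * 2 ^ k) ^ ε) (by positivity)
      (hMM (D * 2 ^ k) (one_le_mul_of_one_le_of_one_le hD1 h2k)) g hg ((1 / 2) ^ (l + 1))
      (by positivity) J (fun j hj => ⟨(hJ j hj).1, fun o ho x hx => ?_⟩)
    · have h3 : (D * 2 ^ k) ^ ε ≤ D ^ η * ((2 : ℝ) ^ (l + 1)) ^ η := by
        rw [Real.mul_rpow (by linarith) (by positivity)]
        refine mul_le_mul (Real.rpow_le_rpow_of_exponent_le hD1 hεη) ?_ (by positivity)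
          (by positivity)
        rw [← Real.rpow_natCast, ← Real.rpow_natCast, ← Real.rpow_mul (by norm_num),
          ← Real.rpow_mul (by norm_num)]
        refine Real.rpow_le_rpow_of_exponent_le (by norm_num) ?_
        have h4 : (k : ℝ) ≤ Kn * (l + 1) := by exact_mod_cast hkl.le
        push_cast
        calc (k : ℝ) * ε ≤ Kn * (l + 1) * ε := mul_le_mul_of_nonneg_right h4 hε0.le
          _ = (ε * Kn) * (l + 1) := by ring
          _ ≤ η * (l + 1) := mul_le_mul_of_nonneg_right hεK (by positivity)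
          _ = _ := by ring
      have h5 : ((1 / 2 : ℝ) ^ (l + 1)) ^ (-p) = ((2 : ℝ) ^ (l + 1)) ^ p := by
        rw [one_div_pow, one_div, Real.rpow_neg (by positivity), Real.inv_rpow (by positivity),
          inv_inv]
      rw [h5] at h1
      calc (J.card : ℝ) ≤ L0 * (M * (D * 2 ^ k) ^ ε) * ((2 : ℝ) ^ (l + 1)) ^ p := h1
        _ ≤ L0 * (M * (D ^ η * ((2 : ℝ) ^ (l + 1)) ^ η)) * ((2 : ℝ) ^ (l + 1)) ^ p := by
            gcongr
        _ = L0 * M * D ^ η * ((2 : ℝ) ^ (l + 1)) ^ (p + η) := by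
            rw [Real.rpow_add (by positivity)]; ring
        _ ≤ _ := mul_le_mul_of_nonneg_right (by linarith) (by positivity)
    · rw [mem_ball_zero_iff]
      have hx' : ∀ i, |x i| ≤ 4 * 2 ^ k := by
        intro i
        have b1 := hx i
        have b2 := abs_coord j i
        have b3 := (hJ j hj).2
        have b4 := abs_le.1 b2
        rw [Fintype.mem_piFinset] at ho
        have b5 := Finset.mem_Icc.1 (ho i)
        rw [Pi.zero_apply] at b5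
        have b6 : (-1 : ℝ) ≤ (o i : ℤ) := by
          have : (-1 : ℤ) ≤ o i := by
            have := b5.1
            push_cast at this
            linarith
          exact_mod_cast this
        have b7 : ((o i : ℤ) : ℝ) ≤ 1 := by
          have : (o i : ℤ) ≤ 1 := by
            have := b5.2
            push_cast at this
            linarith
          exact_mod_cast this
        rw [Pi.add_apply] at b1
        push_cast at b1
        have b8 : (2 : ℝ) ^ (k + 1) = 2 * 2 ^ k := by ring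
        rw [abs_le]
        constructor <;> linarith [b1.1, b1.2, b4.1, b4.2]
      have h6 := norm_le_coord x (4 * 2 ^ k) (by positivity) hx'
      refine lt_of_le_of_lt h6 ?_
      rw [hD]
      have : (0 : ℝ) < 2 ^ k := by positivity
      nlinarith
  filter_upwards [ae_all_iff.2 hN] with ω hω
  intro q hq
  obtain ⟨k, hk⟩ := exists_nat_one_div_lt (show 0 < q - (p - a * (p - 2)) by linarith)
  refine hω k q ?_
  have hk0 : (0 : ℝ) < 1 / ((k : ℝ) + 1) := by positivity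
  nlinarith

end Pool.Agent.N248.RL
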