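import Mathlib
import Pool.Agent.N248.RL.B
import Pool.Agent.N248.RR.Z
set_option autoImplicit false

/-! Random regions from a local estimate: norms, and the paraboloid. -/

namespace Pool.Agent.N248.RL

open MeasureTheory Set ProbabilityTheory
open scoped ENNReal NNReal RealInnerProductSpace ComplexConjugate
open Pool.Agent.N248.RR
open Pool.Agent.R412.RT (Phi)

section
variable {d : ℕ} {Y : Type*} [MeasurableSpace Y] (μ : Measure Y) [IsFiniteMeasure μ]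
  (Φ : Y → EuclideanSpace ℝ (Fin d))

/-- **Transference from a local estimate.** -/
theorem norm_loc (hΦ : Measurable Φ) {p₀ L γ : ℝ}
    (hSu : Surf (Metric.closedBall 0 1) (ps μ Φ hΦ) p₀ L γ)
    (R : ℝ) (hR0 : 0 ≤ R) (hR : ∀ᵐ y ∂μ, ‖Φ y‖ ≤ R)
    (U : Set Y) (hU : MeasurableSet U) (s : ℝ≥0∞) (hs : 2 ≤ s) (p : ℝ) (hp2 : 2 ≤ p)
    (hext : ∀ ε : ℝ, 0 < ε → ∃ C₀ : ℝ, 0 ≤ C₀ ∧ ∀ R' : ℝ, 1 ≤ R' → ∀ f : Y → ℂ,
      MemLp f s (μ.restrict U) →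
      ∫⁻ x in Metric.ball 0 R', ‖∫ y in U, ex ⟪Φ y, x⟫ * f y ∂μ‖ₑ ^ p ≤
        ENNReal.ofReal (C₀ * R' ^ ε) * eLpNorm f s (μ.restrict U) ^ p)
    {Ω : Type*} [MeasurableSpace Ω] (P : Measure Ω) (A : (Fin d → ℤ) → Set Ω) (a c : ℝ)
    (ha : 0 < a) (ha1 : a ≤ 1) (hc : 1 ≤ c)
    (hA : ∀ T : Finset (Fin d → ℤ), P (⋂ j ∈ T, A j) ≤ ∏ j ∈ T, P (A j))
    (hp : ∀ j, P (A j) ≤ ENNReal.ofReal (c * (1 + ‖j‖) ^ (-a))) :
    ∀ᵐ ω ∂P, ∀ r : ℝ, p - a * (p - 2) < r → ∃ C : ℝ≥0, ∀ f : Y → ℂ,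
      MemLp f s (μ.restrict U) →
      ∫⁻ x in ⋃ j ∈ {j | ω ∈ A j}, uq j, ‖∫ y in U, ex ⟪Φ y, x⟫ * f y ∂μ‖ₑ ^ r ≤
        C * eLpNorm f s (μ.restrict U) ^ r := by
  have hp0 : 0 < p := by linarith
  set K : ℝ≥0∞ := μ univ ^ (1 / (2 : ℝ≥0∞).toReal - 1 / s.toReal) + 1 with hK
  have hexp : 0 ≤ 1 / (2 : ℝ≥0∞).toReal - 1 / s.toReal := by
    by_cases hst : s = ∞
    · rw [hst]; simp
    · have h1 : (2 : ℝ≥0∞).toReal ≤ s.toReal := ENNReal.toReal_mono hst hs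
      rw [ENNReal.toReal_ofNat] at h1 ⊢
      rw [sub_nonneg]
      exact one_div_le_one_div_of_le (by norm_num) h1
  have hKt : K ≠ ∞ := ENNReal.add_ne_top.2
    ⟨ENNReal.rpow_ne_top_of_nonneg hexp (measure_ne_top _ _), ENNReal.one_ne_top⟩
  have hK1 : 1 ≤ K := le_add_self
  have hK0 : K ≠ 0 := (lt_of_lt_of_le one_pos hK1).ne'
  have hKi0 : K⁻¹ ≠ 0 := ENNReal.inv_ne_zero.2 hKt
  have hKit : K⁻¹ ≠ ∞ := ENNReal.inv_ne_top.2 hK0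
  set S : Set (Lp ℂ 2 μ) := {F | eLpNorm F s μ ≤ K⁻¹ ∧ ∀ᵐ y ∂μ, y ∉ U → F y = 0} with hS
  have hsub : ∀ F ∈ S, ‖F‖ ≤ 1 := by
    intro F hF
    have h1 : eLpNorm F 2 μ ≤ eLpNorm F s μ * μ univ ^ (1 / (2 : ℝ≥0∞).toReal - 1 / s.toReal) :=
      eLpNorm_le_eLpNorm_mul_rpow_measure_univ hs (Lp.aestronglyMeasurable F)
    have h2 : ‖F‖ₑ ≤ 1 := by
      rw [Lp.enorm_def]
      have h3 : μ univ ^ (1 / (2 : ℝ≥0∞).toReal - 1 / s.toReal) ≤ K := le_add_right le_rfl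
      refine h1.trans ((mul_le_mul' hF.1 h3).trans ?_)
      exact (ENNReal.inv_mul_cancel hK0 hKt).le
    rw [← ofReal_norm] at h2
    exact ENNReal.ofReal_le_one.1 h2
  have hsolid : ∀ F ∈ S, ∀ F' : Lp ℂ 2 μ, (∀ᵐ y ∂μ, ‖F' y‖ ≤ ‖F y‖) → F' ∈ S := by
    intro F hF F' hFF
    refine ⟨(eLpNorm_mono_ae hFF).trans hF.1, ?_⟩
    filter_upwards [hFF, hF.2] with y h1 h2 h3
    rw [h2 h3, norm_zero] at h1
    exact norm_le_zero_iff.1 h1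
  have hrep : ∀ (F : Lp ℂ 2 μ), (∀ᵐ y ∂μ, y ∉ U → F y = 0) → ∀ x,
      inner ℂ (ps μ Φ hΦ x) F = ∫ y in U, ex ⟪Φ y, x⟫ * F y ∂μ := by
    intro F hF x
    rw [ps_inner, ← integral_indicator hU]
    refine integral_congr_ae ?_
    filter_upwards [hF] with y hy
    by_cases h : y ∈ U
    · rw [indicator_of_mem h]
    · rw [indicator_of_notMem h, hy h, mul_zero]
  have hM : ∀ ε : ℝ, 0 < ε → ∃ M : ℝ, 0 ≤ M ∧ ∀ R' : ℝ, 1 ≤ R' → ∀ F ∈ S,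
      ∫⁻ x in Metric.ball 0 R', ‖inner ℂ (ps μ Φ hΦ x) F‖ₑ ^ p ≤
        ENNReal.ofReal (M * R' ^ ε) := by
    intro ε hε
    obtain ⟨C₀, hC₀, hCC⟩ := hext ε hε
    refine ⟨C₀, hC₀, fun R' hR' F hF => ?_⟩
    simp_rw [hrep F hF.2]
    have h1 : eLpNorm F s (μ.restrict U) ≤ K⁻¹ := (eLpNorm_restrict_le _ _ _ _).trans hF.1
    refine (hCC R' hR' F ⟨(Lp.aestronglyMeasurable F).restrict,
      lt_of_le_of_lt h1 hKit.lt_top⟩).trans ?_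
    have h2 : eLpNorm F s (μ.restrict U) ^ p ≤ 1 := by
      refine ENNReal.rpow_le_one (h1.trans ?_) hp0.le
      exact ENNReal.inv_le_one.2 hK1
    calc _ ≤ ENNReal.ofReal (C₀ * R' ^ ε) * 1 := mul_le_mul' le_rfl h2
      _ = _ := mul_one _
  have h := class_loc μ Φ hΦ hSu R hR0 hR S hsub hsolid p hp2 hM P A a c ha ha1 hc hA hp
  filter_upwards [h] with ω hω
  intro r hr
  have hr0 : 0 < r := by
    have : a * (p - 2) ≤ 1 * (p - 2) := mul_le_mul_of_nonneg_right ha1 (by linarith)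
    linarith
  obtain ⟨C, hCC⟩ := hω r hr
  have hKr : K ^ r ≠ ∞ := ENNReal.rpow_ne_top_of_nonneg hr0.le hKt
  refine ⟨C * (K ^ r).toNNReal, fun f hf => ?_⟩
  rw [ENNReal.coe_mul, ENNReal.coe_toNNReal hKr]
  have hf2 : MemLp f 2 (μ.restrict U) := hf.mono_exponent hs
  obtain ⟨F, hF1, hF2, hF3⟩ := piece_level μ Φ hΦ U hU f hf2
  set N : ℝ≥0∞ := eLpNorm f s (μ.restrict U) with hN
  have hNt : N ≠ ∞ := hf.2.ne
  by_cases hN0 : N = 0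
  · have h1 : f =ᵐ[μ.restrict U] 0 := (eLpNorm_eq_zero_iff hf.1 (by
      intro h0; rw [h0] at hs; simp at hs)).1 hN0
    have h2 : ∀ x, ∫ y in U, ex ⟪Φ y, x⟫ * f y ∂μ = 0 := by
      intro x
      rw [integral_congr_ae (g := fun _ => (0 : ℂ)) (by
        filter_upwards [h1] with y hy
        rw [hy, Pi.zero_apply, mul_zero]), integral_zero]
    simp_rw [h2]
    rw [enorm_zero, ENNReal.zero_rpow_of_pos hr0, lintegral_zero]
    exact zero_le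
  set t : ℝ := (K⁻¹ / N).toReal with ht
  have htt : K⁻¹ / N ≠ ∞ := ENNReal.div_ne_top hKit hN0
  have ht0 : 0 < t := ENNReal.toReal_pos (ENNReal.div_ne_zero.2 ⟨hKi0, hNt⟩) htt
  have hte : ‖((t : ℝ) : ℂ)‖ₑ = K⁻¹ / N := by
    rw [← ofReal_norm, Complex.norm_real, Real.norm_eq_abs, abs_of_pos ht0, ht,
      ENNReal.ofReal_toReal htt]
  set G : Lp ℂ 2 μ := ((t : ℝ) : ℂ) • F with hG
  have hGS : G ∈ S := by
    refine ⟨?_, ?_⟩
    · have h1 : eLpNorm G s μ = eLpNorm (((t : ℝ) : ℂ) • (U.indicator f)) s μ := by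
        refine eLpNorm_congr_ae ?_
        filter_upwards [Lp.coeFn_smul ((t : ℝ) : ℂ) F, hF1] with y h2 h3
        rw [h2, Pi.smul_apply, Pi.smul_apply, h3]
      rw [h1, eLpNorm_const_smul, eLpNorm_indicator_eq_eLpNorm_restrict hU, hte]
      exact (ENNReal.div_mul_cancel hN0 hNt).le
    · filter_upwards [Lp.coeFn_smul ((t : ℝ) : ℂ) F, hF1] with y h2 h3 h4
      rw [h2, Pi.smul_apply, h3, indicator_of_notMem h4, smul_zero]
  have h5 := hCC G hGS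
  have h6 : ∀ x, ‖∫ y in U, ex ⟪Φ y, x⟫ * f y ∂μ‖ₑ ^ r =
      (K * N) ^ r * ‖inner ℂ (ps μ Φ hΦ x) G‖ₑ ^ r := by
    intro x
    rw [← hF3 x, hG, inner_smul_right, enorm_mul, ← ENNReal.mul_rpow_of_nonneg _ _ hr0.le,
      ← mul_assoc, hte]
    have h7 : K * N * (K⁻¹ / N) = 1 := by
      rw [div_eq_mul_inv, mul_mul_mul_comm, ENNReal.mul_inv_cancel hK0 hKt,
        ENNReal.mul_inv_cancel hN0 hNt, one_mul]
    rw [h7, one_mul]
  simp_rw [h6]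
  rw [lintegral_const_mul' _ _ (ENNReal.rpow_ne_top_of_nonneg hr0.le
    (ENNReal.mul_ne_top hKt hNt))]
  refine (mul_le_mul' le_rfl h5).trans (le_of_eq ?_)
  rw [ENNReal.mul_rpow_of_nonneg _ _ hr0.le]
  ring


end

variable {n : ℕ}

/-- the hypotheses for the paraboloid -/
theorem para_surf (hn : 1 ≤ n) (s : ℝ) (hs : s ≠ 0) :
    ∃ L' : ℝ, Surf (Metric.closedBall 0 1)
      (ps (volume.restrict (cub n)) (sPhi s) (sPhi_meas s)) (2 + 2 / ((n : ℝ) / 2)) L' (1 / 2) := by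
  obtain ⟨R, hR0, hR⟩ := sPhi_bound (n := n) s
  have hs0 : 0 < |s| := abs_pos.2 hs
  have hn0 : (0 : ℝ) < n := by exact_mod_cast hn
  set L₀ : ℝ := (|(s / (2 * Real.pi))| ^ n)⁻¹ + (5 * |s| ^ (-(1 / 2) : ℝ)) ^ n +
    2 ^ n * (10 * (|s| / (n + 1)) ^ (-(1 / 2) : ℝ)) with hL₀
  have e1 : 0 ≤ (|(s / (2 * Real.pi))| ^ n)⁻¹ := by positivity
  have e2 : 0 ≤ (5 * |s| ^ (-(1 / 2) : ℝ)) ^ n := by positivity
  have e3 : 0 ≤ 2 ^ n * (10 * (|s| / (n + 1)) ^ (-(1 / 2) : ℝ)) := by positivity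
  exact surf_ball (volume.restrict (cub n)) (sPhi s) (sPhi_meas s)
    (fun _ : Fin 1 => Fin.last n) L₀ ((n : ℝ) / 2) (1 / 2) (by linarith) (by positivity)
    (by norm_num) (by
      intro f B hB α τ hτ hBα
      refine (para_energy s hs f B hB α τ hτ hBα).trans ?_
      refine mul_le_mul' (ENNReal.ofReal_le_ofReal ?_) le_rfl
      exact mul_le_mul_of_nonneg_right (by linarith) (by linarith))
    R hR0 hR (by
      intro x t hx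
      refine (kernel_time s hs x hx).trans ?_
      exact mul_le_mul_of_nonneg_right (by linarith) (by positivity))
    (by
      intro x hx
      refine (kernel_all hn s hs x hx).trans ?_
      exact mul_le_mul_of_nonneg_right (by linarith) (by positivity))

/-- local boundedness with small losses -/
def LocBdd (s₀ : ℝ) (U : Set (EuclideanSpace ℝ (Fin n))) (s : ℝ≥0∞) (p : ℝ) : Prop :=
  ∀ ε : ℝ, 0 < ε → ∃ C₀ : ℝ, 0 ≤ C₀ ∧ ∀ R' : ℝ, 1 ≤ R' → ∀ f : EuclideanSpace ℝ (Fin n) → ℂ,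
    MemLp f s (volume.restrict U) →
    ∫⁻ x in Metric.ball (0 : EuclideanSpace ℝ (Fin (n + 1))) R',
      ‖∫ ξ in U, ex (s₀ * ⟪Phi ξ, x⟫) * f ξ‖ₑ ^ p ≤
      ENNReal.ofReal (C₀ * R' ^ ε) * eLpNorm f s (volume.restrict U) ^ p

theorem para_loc (hn : 1 ≤ n) (s₀ : ℝ) (hs₀ : s₀ ≠ 0)
    (U : Set (EuclideanSpace ℝ (Fin n))) (hU : MeasurableSet U) (hUc : U ⊆ cub n)
    {Ω : Type*} [MeasurableSpace Ω] (P : Measure Ω) (A : (Fin (n + 1) → ℤ) → Set Ω) (a : ℝ)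
    (ha : 0 < a) (ha1 : a ≤ 1) (hA : RC P A a) (s : ℝ≥0∞) (hs : 2 ≤ s) (p : ℝ) (hp2 : 2 ≤ p)
    (hext : LocBdd s₀ U s p) :
    ∀ᵐ ω ∂P, ∀ q : ℝ, p - a * (p - 2) < q → Bdd s₀ U s q (⋃ j ∈ {j | ω ∈ A j}, uq j) := by
  obtain ⟨c, hc1, hc⟩ := hA.up1
  obtain ⟨R, hR0, hR⟩ := sPhi_bound (n := n) s₀
  obtain ⟨L', hS⟩ := para_surf hn s₀ hs₀
  have hrr : (volume.restrict (cub n)).restrict U = volume.restrict U := by
    rw [Measure.restrict_restrict hU, inter_eq_left.2 hUc]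
  have h := norm_loc (volume.restrict (cub n)) (sPhi s₀) (sPhi_meas s₀) hS R hR0 hR U hU s hs p hp2
    (by
      rw [hrr]
      simp_rw [ex_sPhi]
      exact hext) P A a c ha ha1 hc1 hA.prod hc
  rw [hrr] at h
  simp_rw [ex_sPhi] at h
  exact h

end Pool.Agent.N248.RL
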