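import Mathlib
import Pool.Agent.N248.RL.C
set_option autoImplicit false

/-! From random regions back to the local estimate. -/

namespace Pool.Agent.N248.RL

open MeasureTheory Set ProbabilityTheory
open scoped ENNReal NNReal RealInnerProductSpace ComplexConjugate
open Pool.Agent.N248.RR
open Pool.Agent.R412.RT (Phi)

/-- a weighted sum of independent indicators is not much smaller than its mean -/
theorem wmany {α Ω : Type*} [MeasurableSpace Ω] (P : Measure Ω) [IsProbabilityMeasure P]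
    (A : α → Set Ω) (hAm : ∀ j, MeasurableSet (A j)) (hind : iIndepSet A P) (J : Finset α)
    (w : α → ℝ) (hw0 : ∀ j, 0 ≤ w j) (hw1 : ∀ j, w j ≤ 1)
    (hM0 : 0 < ∑ j ∈ J, w j * P.real (A j)) :
    P {ω | ∑ j ∈ J, w j * (A j).indicator (fun _ => (1 : ℝ)) ω <
      (∑ j ∈ J, w j * P.real (A j)) / 2} ≤
      ENNReal.ofReal (4 / ∑ j ∈ J, w j * P.real (A j)) := by
  classical
  set X : α → Ω → ℝ := fun j => (A j).indicator fun _ => (1 : ℝ) with hX
  have hXm : ∀ j, MemLp (X j) 2 P := fun j =>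
    MemLp.of_bound (measurable_const.indicator (hAm j)).aestronglyMeasurable 1
      (Filter.Eventually.of_forall fun ω => by
        simp only [hX]
        by_cases h : ω ∈ A j
        · rw [indicator_of_mem h]; simp
        · rw [indicator_of_notMem h]; simp)
  have hXi : iIndepFun X P := hind.iIndepFun_indicator
  set Z : α → Ω → ℝ := fun j ω => w j * X j ω with hZ
  have hZm : ∀ j, MemLp (Z j) 2 P := fun j => (hXm j).const_mul (w j)
  have hZi : iIndepFun Z P := hXi.comp (fun j x => w j * x) fun j => measurable_const_mul (w j)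
  set M : ℝ := ∑ j ∈ J, w j * P.real (A j) with hM
  have hEX : ∀ j, ∫ ω, X j ω ∂P = P.real (A j) := by
    intro j
    simp only [hX]
    rw [integral_indicator (hAm j)]
    simp
  have hEZ : ∀ j, ∫ ω, Z j ω ∂P = w j * P.real (A j) := by
    intro j
    simp only [hZ]
    rw [integral_const_mul, hEX]
  set S : Ω → ℝ := ∑ j ∈ J, Z j with hS
  have hES : ∫ ω, S ω ∂P = M := by
    simp only [hS, Finset.sum_apply]
    rw [integral_finsetSum _ fun j _ => (hZm j).integrable (by norm_num)]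
    exact Finset.sum_congr rfl fun j _ => hEZ j
  have hvar : variance S P ≤ M := by
    rw [hS, IndepFun.variance_sum (fun j _ => hZm j) (fun i _ j _ hij => hZi.indepFun hij)]
    rw [hM]
    refine Finset.sum_le_sum fun j _ => ?_
    refine (variance_le_expectation_sq (hZm j).aestronglyMeasurable).trans ?_
    rw [← hEZ j]
    refine integral_mono ?_ ((hZm j).integrable (by norm_num)) fun ω => ?_
    · exact (hZm j).integrable_sq
    · simp only [hZ, Pi.pow_apply]
      have h1 : X j ω = 0 ∨ X j ω = 1 := by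
        by_cases h : ω ∈ A j
        · right; simp only [hX]; rw [indicator_of_mem h]
        · left; simp only [hX]; rw [indicator_of_notMem h]
      have h2 := hw0 j
      have h3 := hw1 j
      rcases h1 with h | h
      · rw [h]; simp
      · rw [h]; nlinarith
  have hSm : MemLp S 2 P := memLp_finsetSum' J (fun j _ => hZm j)
  have hcheb := meas_ge_le_variance_div_sq hSm (c := M / 2) (by positivity)
  have hsub : {ω | ∑ j ∈ J, w j * (A j).indicator (fun _ => (1 : ℝ)) ω < M / 2} ⊆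
      {ω | M / 2 ≤ |S ω - ∫ ω, S ω ∂P|} := by
    intro ω hω
    have h1 : S ω < M / 2 := by
      simp only [hS, Finset.sum_apply]
      exact hω
    show M / 2 ≤ |S ω - ∫ ω, S ω ∂P|
    rw [hES, abs_sub_comm]
    refine le_trans ?_ (le_abs_self _)
    linarith
  refine (measure_mono hsub).trans (hcheb.trans (ENNReal.ofReal_le_ofReal ?_))
  rw [div_le_div_iff₀ (by positivity) hM0]
  have h2 : variance S P * M ≤ M * M := mul_le_mul_of_nonneg_right hvar hM0.le
  nlinarith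

variable {n : ℕ}

/-- the cubes which meet the ball -/
theorem ball_cover {d : ℕ} (R : ℝ) (hR : 1 ≤ R) : ∃ F : Finset (Fin d → ℤ),
    (∀ j ∈ F, 1 + ‖j‖ ≤ 4 * R) ∧
    Metric.ball (0 : EuclideanSpace ℝ (Fin d)) R ⊆ ⋃ j ∈ F, uq j := by
  classical
  refine ⟨Fintype.piFinset fun _ => Finset.Icc (-(⌈R⌉ + 1)) ⌈R⌉, fun j hj => ?_, fun x hx => ?_⟩
  · rw [Fintype.mem_piFinset] at hj
    have h1 : ‖j‖ ≤ R + 2 := by
      rw [pi_norm_le_iff_of_nonneg (by linarith)]
      intro i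
      have h2 := Finset.mem_Icc.1 (hj i)
      have h3 := Int.ceil_lt_add_one R
      rw [Int.norm_eq_abs, abs_le]
      have h4 : ((-(⌈R⌉ + 1) : ℤ) : ℝ) ≤ j i := by exact_mod_cast h2.1
      have h5 : (j i : ℝ) ≤ ((⌈R⌉ : ℤ) : ℝ) := by exact_mod_cast h2.2
      push_cast at h4
      constructor <;> linarith
    linarith
  · rw [mem_ball_zero_iff] at hx
    rw [mem_iUnion₂]
    refine ⟨fun i => ⌊x i⌋, ?_, fun i => ⟨Int.floor_le _, Int.lt_floor_add_one _⟩⟩
    rw [Fintype.mem_piFinset]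
    intro i
    have h1 : |x i| ≤ ‖x‖ := by
      have := PiLp.norm_apply_le x i
      simpa using this
    have h2 := abs_le.1 (h1.trans hx.le)
    have h3 := Int.le_ceil R
    rw [Finset.mem_Icc]
    constructor
    · rw [Int.le_floor]
      push_cast
      linarith
    · rw [Int.floor_le_iff]
      linarith

/-- **From random regions back to the local estimate** -/
theorem conv (s₀ : ℝ) (U : Set (EuclideanSpace ℝ (Fin n))) (hUc : U ⊆ cub n)
    {Ω : Type*} [MeasurableSpace Ω] (P : Measure Ω) [IsProbabilityMeasure P]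
    (A : (Fin (n + 1) → ℤ) → Set Ω) (a : ℝ)
    (ha : 0 < a) (hA : RC P A a) (s : ℝ≥0∞) (hs : 1 ≤ s) (q : ℝ) (hq : 0 < q)
    (hb : ∀ᵐ ω ∂P, Bdd s₀ U s q (⋃ j ∈ {j | ω ∈ A j}, uq j)) :
    ∃ C : ℝ, 0 ≤ C ∧ ∀ R : ℝ, 1 ≤ R → ∀ f : EuclideanSpace ℝ (Fin n) → ℂ,
      MemLp f s (volume.restrict U) →
      ∫⁻ x in Metric.ball (0 : EuclideanSpace ℝ (Fin (n + 1))) R,
        ‖∫ ξ in U, ex (s₀ * ⟪Phi ξ, x⟫) * f ξ‖ₑ ^ q ≤
        ENNReal.ofReal (C * R ^ a) * eLpNorm f s (volume.restrict U) ^ q := by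
  classical
  have hUv : volume U ≠ ∞ := ((measure_mono hUc).trans_lt (cub_vol n).lt_top).ne
  have hfin : IsFiniteMeasure (volume.restrict U) :=
    ⟨by rw [Measure.restrict_apply_univ]; exact hUv.lt_top⟩
  obtain ⟨c, hc0, hc⟩ := hA.low
  set T : (EuclideanSpace ℝ (Fin n) → ℂ) → EuclideanSpace ℝ (Fin (n + 1)) → ℂ := fun f x =>
    ∫ ξ in U, ex (s₀ * ⟪Phi ξ, x⟫) * f ξ with hT
  -- a large set of good points
  set G : ℕ → Set Ω := fun m => {ω | ∀ f : EuclideanSpace ℝ (Fin n) → ℂ,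
    MemLp f s (volume.restrict U) → ∫⁻ x in ⋃ j ∈ {j | ω ∈ A j}, uq j, ‖T f x‖ₑ ^ q ≤
      (m : ℝ≥0∞) * eLpNorm f s (volume.restrict U) ^ q} with hG
  have hGm : Monotone G := by
    intro m m' hmm ω hω f hf
    refine (hω f hf).trans (mul_le_mul' ?_ le_rfl)
    exact_mod_cast hmm
  have hGu : P (⋃ m, G m) = 1 := by
    have h1 : ∀ᵐ ω ∂P, ω ∈ ⋃ m, G m := by
      filter_upwards [hb] with ω hω
      obtain ⟨C, hC⟩ := hω
      obtain ⟨m, hm⟩ := exists_nat_ge C
      rw [mem_iUnion]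
      refine ⟨m, fun f hf => (hC f hf).trans (mul_le_mul' ?_ le_rfl)⟩
      exact_mod_cast hm
    refine le_antisymm prob_le_one ?_
    rw [← measure_univ (μ := P)]
    exact measure_mono_ae (by filter_upwards [h1] with ω hω _ using hω)
  obtain ⟨m, hm⟩ : ∃ m, ENNReal.ofReal (1 / 2) < P (G m) := by
    rw [hGm.measure_iUnion] at hGu
    have h1 : ENNReal.ofReal (1 / 2) < ⨆ m, P (G m) := by
      rw [hGu, ← ENNReal.ofReal_one]
      exact (ENNReal.ofReal_lt_ofReal_iff (by norm_num)).2 (by norm_num)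
    exact lt_iSup_iff.1 h1
  -- the uniform bound
  set K : ℝ≥0∞ := (volume.restrict U) univ ^ (1 / (1 : ℝ≥0∞).toReal - 1 / s.toReal) + 1 with hK
  have hexp : 0 ≤ 1 / (1 : ℝ≥0∞).toReal - 1 / s.toReal := by
    by_cases hst : s = ∞
    · rw [hst]; simp
    · have h1 : (1 : ℝ≥0∞).toReal ≤ s.toReal := ENNReal.toReal_mono hst hs
      rw [ENNReal.toReal_one] at h1 ⊢
      rw [sub_nonneg]
      exact one_div_le_one_div_of_le (by norm_num) h1
  have hKt : K ≠ ∞ := ENNReal.add_ne_top.2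
    ⟨ENNReal.rpow_ne_top_of_nonneg hexp (measure_ne_top _ _), ENNReal.one_ne_top⟩
  have hK1 : 1 ≤ K := le_add_self
  have hTb : ∀ f : EuclideanSpace ℝ (Fin n) → ℂ, MemLp f s (volume.restrict U) → ∀ x,
      ‖T f x‖ₑ ≤ K * eLpNorm f s (volume.restrict U) := by
    intro f hf x
    have h1 : ‖T f x‖ₑ ≤ ∫⁻ ξ in U, ‖f ξ‖ₑ := by
      refine (enorm_integral_le_lintegral_enorm _).trans (lintegral_mono fun ξ => ?_)
      rw [enorm_mul, ← ofReal_norm (ex _), ex_norm, ENNReal.ofReal_one, one_mul]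
    have h2 : ∫⁻ ξ in U, ‖f ξ‖ₑ = eLpNorm f 1 (volume.restrict U) :=
      eLpNorm_one_eq_lintegral_enorm.symm
    rw [h2] at h1
    refine h1.trans ?_
    rw [mul_comm]
    exact (eLpNorm_le_eLpNorm_mul_rpow_measure_univ hs hf.1).trans
      (mul_le_mul' le_rfl (le_add_right le_rfl))
  -- the constant
  set C₁ : ℝ := 8 + 2 * m with hC₁
  have hC₁0 : 0 < C₁ := by positivity
  refine ⟨(K ^ q).toReal * (C₁ * 4 ^ a / c), by positivity, fun R hR f hf => ?_⟩
  set N : ℝ≥0∞ := eLpNorm f s (volume.restrict U) with hN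
  have hNt : N ≠ ∞ := hf.2.ne
  by_cases hN0 : N = 0
  · have h2 : ∀ x, T f x = 0 := by
      intro x
      have h3 := hTb f hf x
      rw [← hN, hN0, mul_zero, nonpos_iff_eq_zero, enorm_eq_zero] at h3
      exact h3
    have h4 : ∀ x, ∫ ξ in U, ex (s₀ * ⟪Phi ξ, x⟫) * f ξ = 0 := h2
    simp_rw [h4]
    rw [enorm_zero, ENNReal.zero_rpow_of_pos hq, lintegral_zero]
    exact zero_le
  set B : ℝ≥0∞ := (K * N) ^ q with hB
  have hKN0 : K * N ≠ 0 := mul_ne_zero (lt_of_lt_of_le one_pos hK1).ne' hN0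
  have hKNt : K * N ≠ ∞ := ENNReal.mul_ne_top hKt hNt
  have hB0 : B ≠ 0 := by
    rw [hB]
    exact (ENNReal.rpow_pos (pos_iff_ne_zero.2 hKN0) hKNt).ne'
  have hBt : B ≠ ∞ := ENNReal.rpow_ne_top_of_nonneg hq.le hKNt
  set Y : (Fin (n + 1) → ℤ) → ℝ≥0∞ := fun j => ∫⁻ x in uq j, ‖T f x‖ₑ ^ q with hY
  have hYB : ∀ j, Y j ≤ B := by
    intro j
    calc Y j ≤ ∫⁻ _ in uq j, B := lintegral_mono fun x => ENNReal.rpow_le_rpow (hTb f hf x) hq.le
      _ = B := by rw [setLIntegral_const, uq_vol, mul_one]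
  set w : (Fin (n + 1) → ℤ) → ℝ := fun j => (Y j / B).toReal with hw
  have hYBt : ∀ j, Y j / B ≠ ∞ := fun j =>
    ENNReal.div_ne_top ((hYB j).trans_lt hBt.lt_top).ne hB0
  have hw1 : ∀ j, w j ≤ 1 := by
    intro j
    rw [← ENNReal.toReal_one]
    exact ENNReal.toReal_mono ENNReal.one_ne_top (ENNReal.div_le_of_le_mul (by
      rw [one_mul]; exact hYB j))
  have hwY : ∀ j, ENNReal.ofReal (w j) * B = Y j := by
    intro j
    simp only [hw]
    rw [ENNReal.ofReal_toReal (hYBt j), ENNReal.div_mul_cancel hB0 hBt]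
  obtain ⟨F, hF1, hF2⟩ := ball_cover (d := n + 1) R hR
  -- the sum on the good set
  have hgood : ∀ ω ∈ G m, ∑ j ∈ F, w j * (A j).indicator (fun _ => (1 : ℝ)) ω ≤ m := by
    intro ω hω
    have h1 := hω f hf
    set F' : Finset (Fin (n + 1) → ℤ) := F.filter fun j => ω ∈ A j with hF'
    have h2 : ∑ j ∈ F', Y j ≤ (m : ℝ≥0∞) * N ^ q := by
      refine le_trans ?_ h1
      simp only [hY]
      rw [← lintegral_biUnion_finset (fun j _ k _ hjk => uq_disj _ _ hjk) (fun j _ => uq_meas _)]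
      refine lintegral_mono_set (iUnion₂_subset fun j hj => ?_)
      exact subset_biUnion_of_mem (show j ∈ {j | ω ∈ A j} from (Finset.mem_filter.1 hj).2)
    have h3 : N ^ q ≤ B := ENNReal.rpow_le_rpow (by
      calc N = 1 * N := (one_mul N).symm
        _ ≤ K * N := mul_le_mul' hK1 le_rfl) hq.le
    have h4 : ENNReal.ofReal (∑ j ∈ F', w j) * B ≤ (m : ℝ≥0∞) * B := by
      rw [ENNReal.ofReal_sum_of_nonneg fun j _ => ENNReal.toReal_nonneg, Finset.sum_mul,
        Finset.sum_congr rfl fun j _ => hwY j]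
      exact h2.trans (mul_le_mul' le_rfl h3)
    have h5 : ENNReal.ofReal (∑ j ∈ F', w j) ≤ (m : ℝ≥0∞) :=
      (ENNReal.mul_le_mul_iff_left hB0 hBt).1 h4
    rw [← ENNReal.ofReal_natCast, ENNReal.ofReal_le_ofReal_iff (Nat.cast_nonneg _)] at h5
    refine le_trans (le_of_eq ?_) h5
    rw [hF', Finset.sum_filter]
    refine Finset.sum_congr rfl fun j _ => ?_
    by_cases h : ω ∈ A j
    · rw [indicator_of_mem h, if_pos h, mul_one]
    · rw [indicator_of_notMem h, if_neg h, mul_zero]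
  have hmean : ∑ j ∈ F, w j * P.real (A j) ≤ C₁ := by
    by_contra hcon
    push Not at hcon
    have h1 := wmany P A hA.meas hA.indep F w (fun j => ENNReal.toReal_nonneg) hw1
      (hC₁0.trans hcon)
    have hm0 : (0 : ℝ) ≤ m := Nat.cast_nonneg m
    have h2 : P (G m) ≤ ENNReal.ofReal (1 / 2) := by
      refine (measure_mono fun ω hω => ?_).trans (h1.trans (ENNReal.ofReal_le_ofReal ?_))
      · have h3 := hgood ω hω
        show ∑ j ∈ F, w j * (A j).indicator (fun _ => (1 : ℝ)) ω < _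
        linarith
      · rw [div_le_div_iff₀ (hC₁0.trans hcon) (by norm_num)]
        linarith
    exact absurd hm (not_lt.2 h2)
  have h4R : (0 : ℝ) < 4 * R := by linarith
  have hsum : ∑ j ∈ F, w j ≤ C₁ * 4 ^ a / c * R ^ a := by
    have h1 : ∀ j ∈ F, c * (4 * R) ^ (-a) ≤ P.real (A j) := by
      intro j hj
      have h2 : c * (1 + ‖j‖) ^ (-a) ≤ P.real (A j) := by
        have := hc j
        rw [Measure.real]
        exact (ENNReal.ofReal_le_iff_le_toReal (measure_ne_top P _)).1 this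
      refine le_trans (mul_le_mul_of_nonneg_left ?_ hc0.le) h2
      refine Real.rpow_le_rpow_of_nonpos ?_ (hF1 j hj) (by linarith)
      have := norm_nonneg j
      linarith
    have h3 : (∑ j ∈ F, w j) * (c * (4 * R) ^ (-a)) ≤ C₁ := by
      rw [Finset.sum_mul]
      exact (Finset.sum_le_sum fun j hj =>
        mul_le_mul_of_nonneg_left (h1 j hj) ENNReal.toReal_nonneg).trans hmean
    have h4 : 0 < c * (4 * R) ^ (-a) := by positivity
    rw [← le_div_iff₀ h4] at h3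
    refine h3.trans (le_of_eq ?_)
    rw [Real.rpow_neg h4R.le, Real.mul_rpow (by norm_num) (by linarith)]
    have h5 : (0 : ℝ) < 4 ^ a := by positivity
    have h6 : (0 : ℝ) < R ^ a := by positivity
    field_simp
  calc ∫⁻ x in Metric.ball (0 : EuclideanSpace ℝ (Fin (n + 1))) R, ‖T f x‖ₑ ^ q
      ≤ ∫⁻ x in ⋃ j ∈ F, uq j, ‖T f x‖ₑ ^ q := lintegral_mono_set hF2
    _ = ∑ j ∈ F, Y j :=
        lintegral_biUnion_finset (fun j _ k _ hjk => uq_disj _ _ hjk) (fun j _ => uq_meas _) _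
    _ = ENNReal.ofReal (∑ j ∈ F, w j) * B := by
        rw [ENNReal.ofReal_sum_of_nonneg fun j _ => ENNReal.toReal_nonneg, Finset.sum_mul,
          Finset.sum_congr rfl fun j _ => hwY j]
    _ ≤ ENNReal.ofReal (C₁ * 4 ^ a / c * R ^ a) * B :=
        mul_le_mul' (ENNReal.ofReal_le_ofReal hsum) le_rfl
    _ = ENNReal.ofReal ((K ^ q).toReal * (C₁ * 4 ^ a / c) * R ^ a) * N ^ q := by
        have hKq : K ^ q ≠ ∞ := ENNReal.rpow_ne_top_of_nonneg hq.le hKt
        rw [hB, ENNReal.mul_rpow_of_nonneg _ _ hq.le, mul_assoc (K ^ q).toReal,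
          ENNReal.ofReal_mul ENNReal.toReal_nonneg, ENNReal.ofReal_toReal hKq]
        ring

/-- the equivalence -/
theorem equiv (s₀ : ℝ) (U : Set (EuclideanSpace ℝ (Fin n))) (hUc : U ⊆ cub n)
    (s : ℝ≥0∞) (hs : 2 ≤ s) (p : ℝ) (hp2 : 2 < p)
    (Ω : ℝ → Type*) [∀ a, MeasurableSpace (Ω a)] (P : ∀ a, Measure (Ω a))
    [∀ a, IsProbabilityMeasure (P a)] (A : ∀ a, (Fin (n + 1) → ℤ) → Set (Ω a))
    (hA : ∀ a, 0 < a → a ≤ 1 → RC (P a) (A a) a)
    (hb : ∀ a, 0 < a → a ≤ 1 → ∀ᵐ ω ∂(P a), Bdd s₀ U s p (⋃ j ∈ {j | ω ∈ A a j}, uq j)) :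
    LocBdd s₀ U s p := by
  intro ε hε
  have ha0 : 0 < min ε 1 := lt_min hε one_pos
  obtain ⟨C, hC0, hC⟩ := conv s₀ U hUc (P (min ε 1)) (A (min ε 1)) (min ε 1) ha0
    (hA _ ha0 (min_le_right _ _)) s (le_trans (by norm_num) hs) p (by linarith)
    (hb _ ha0 (min_le_right _ _))
  refine ⟨C, hC0, fun R hR f hf => (hC R hR f hf).trans (mul_le_mul' ?_ le_rfl)⟩
  refine ENNReal.ofReal_le_ofReal (mul_le_mul_of_nonneg_left ?_ hC0)
  exact Real.rpow_le_rpow_of_exponent_le hR (min_le_left _ _)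

end Pool.Agent.N248.RL
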