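import Mathlib
import Pool.Agent.N248.RL.D
set_option autoImplicit false

/-! The local estimate from the global ones. -/

namespace Pool.Agent.N248.RL

open MeasureTheory Set ProbabilityTheory
open scoped ENNReal NNReal RealInnerProductSpace ComplexConjugate
open Pool.Agent.N248.RR
open Pool.Agent.R412.RT (Phi)

variable {n : ℕ}

theorem loc_of_glob (s₀ : ℝ) (s : ℝ≥0∞) (hs : 2 ≤ s) (p : ℝ) (hp : 0 < p)
    (h : ∀ q, p < q → Bdd s₀ (cub n) s q univ) : LocBdd s₀ (cub n) s p := by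
  intro ε hε
  have hcubv : volume (cub n) ≠ ∞ := cub_vol n
  have hfin : IsFiniteMeasure (volume.restrict (cub n)) :=
    ⟨by rw [Measure.restrict_apply_univ]; exact hcubv.lt_top⟩
  -- the exponent
  set d : ℝ := (n : ℝ) + 1 with hd
  have hd0 : 0 < d := by positivity
  set q : ℝ := p * (1 + ε / d) with hq
  have hεd : 0 < ε / d := by positivity
  have hpq : p < q := by rw [hq]; nlinarith
  have hq0 : 0 < q := hp.trans hpq
  set t : ℝ := q / p with ht
  have ht1 : 1 < t := by rw [ht, one_lt_div hp]; exact hpq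
  have ht0 : 0 < t := by linarith
  obtain ⟨C, hC⟩ := h q hpq
  set V : ℝ := volume.real (Metric.ball (0 : EuclideanSpace ℝ (Fin (n + 1))) 1) + 1 with hV
  have hV1 : 1 ≤ V := by
    have : 0 ≤ volume.real (Metric.ball (0 : EuclideanSpace ℝ (Fin (n + 1))) 1) :=
      measureReal_nonneg
    linarith
  refine ⟨V * ((C : ℝ) + 1), by positivity, fun R hR f hf => ?_⟩
  set N : ℝ≥0∞ := eLpNorm f s (volume.restrict (cub n)) with hN
  obtain ⟨F, hF1, hF2⟩ := fn_level s₀ (cub n) (cub_meas n) Subset.rfl f (hf.mono_exponent hs)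
  have hmeas : Measurable fun x : EuclideanSpace ℝ (Fin (n + 1)) =>
      ∫ ξ in cub n, ex (s₀ * ⟪Phi ξ, x⟫) * f ξ := by
    have h1 := ps_meas (volume.restrict (cub n)) (sPhi s₀) (sPhi_meas s₀) F
    simp_rw [hF2] at h1
    exact h1
  set T : EuclideanSpace ℝ (Fin (n + 1)) → ℂ := fun x =>
    ∫ ξ in cub n, ex (s₀ * ⟪Phi ξ, x⟫) * f ξ with hT
  set ν : Measure (EuclideanSpace ℝ (Fin (n + 1))) := volume.restrict (Metric.ball 0 R) with hν
  have h1 := holder_const ν t ht1 (fun x => ‖T x‖ₑ ^ p) (hmeas.enorm.pow_const p).aemeasurable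
  have h2 : ∀ x, (‖T x‖ₑ ^ p) ^ t = ‖T x‖ₑ ^ q := by
    intro x
    rw [← ENNReal.rpow_mul, ht, mul_div_cancel₀ _ hp.ne']
  simp_rw [h2] at h1
  have h3 : ∫⁻ x, ‖T x‖ₑ ^ q ∂ν ≤ C * N ^ q := by
    have h4 := hC f hf
    rw [setLIntegral_univ] at h4
    exact (setLIntegral_le_lintegral _ _).trans h4
  have h5 : ∫⁻ x, ‖T x‖ₑ ^ p ∂ν ≤ ν univ ^ (1 / Real.conjExponent t) * (C * N ^ q) ^ (1 / t) := by
    have h6 : (∫⁻ x, ‖T x‖ₑ ^ p ∂ν) ^ t ≤
        (ν univ ^ (1 / Real.conjExponent t)) ^ t * (C * N ^ q) := h1.trans (mul_le_mul' le_rfl h3)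
    have h7 := ENNReal.rpow_le_rpow h6 (show 0 ≤ 1 / t by positivity)
    rw [ENNReal.mul_rpow_of_nonneg _ _ (by positivity), ← ENNReal.rpow_mul, ← ENNReal.rpow_mul,
      mul_one_div_cancel ht0.ne', ENNReal.rpow_one, ENNReal.rpow_one] at h7
    exact h7
  refine h5.trans ?_
  have hconj : 1 / Real.conjExponent t = 1 - 1 / t := by
    have h8 := (Real.HolderConjugate.conjExponent ht1).inv_add_inv_eq_one
    rw [one_div, one_div]
    linarith
  have h1t : 1 / t = p / q := by rw [ht, one_div_div]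
  have hpq1 : 1 - p / q ≤ ε / d := by
    rw [hq]
    have : p / (p * (1 + ε / d)) = 1 / (1 + ε / d) := by
      field_simp
    rw [this, one_sub_div (by positivity), add_sub_cancel_left]
    exact div_le_self hεd.le (by linarith)
  have hpq0 : 0 ≤ 1 - p / q := by
    rw [sub_nonneg, div_le_one hq0]
    exact hpq.le
  have hpq2 : 1 - p / q ≤ 1 := by
    have : 0 < p / q := by positivity
    linarith
  have h9 : ν univ ^ (1 / Real.conjExponent t) ≤ ENNReal.ofReal (V * R ^ ε) := by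
    rw [hν, Measure.restrict_apply_univ, hconj, h1t]
    have h10 : volume (Metric.ball (0 : EuclideanSpace ℝ (Fin (n + 1))) R) ≤
        ENNReal.ofReal (V * R ^ d) := by
      rw [Measure.addHaar_ball volume _ (by linarith), finrank_euclideanSpace, Fintype.card_fin]
      have h11 : volume (Metric.ball (0 : EuclideanSpace ℝ (Fin (n + 1))) 1) ≤
          ENNReal.ofReal V := by
        rw [← ENNReal.ofReal_toReal (measure_ball_lt_top (μ := volume)
          (x := (0 : EuclideanSpace ℝ (Fin (n + 1)))) (r := 1)).ne]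
        refine ENNReal.ofReal_le_ofReal ?_
        rw [hV, Measure.real]
        linarith
      rw [mul_comm V, ENNReal.ofReal_mul (by positivity)]
      refine mul_le_mul' (ENNReal.ofReal_le_ofReal (le_of_eq ?_)) h11
      rw [hd, ← Nat.cast_succ, Real.rpow_natCast]
    refine (ENNReal.rpow_le_rpow h10 hpq0).trans ?_
    rw [ENNReal.ofReal_rpow_of_nonneg (by positivity) hpq0]
    refine ENNReal.ofReal_le_ofReal ?_
    rw [Real.mul_rpow (by linarith) (by positivity), ← Real.rpow_mul (by linarith)]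
    refine mul_le_mul ?_ ?_ (by positivity) (by linarith)
    · calc V ^ (1 - p / q) ≤ V ^ (1 : ℝ) := Real.rpow_le_rpow_of_exponent_le hV1 hpq2
        _ = V := Real.rpow_one V
    · refine Real.rpow_le_rpow_of_exponent_le hR ?_
      calc d * (1 - p / q) ≤ d * (ε / d) := mul_le_mul_of_nonneg_left hpq1 hd0.le
        _ = ε := by field_simp
  have h12 : ((C : ℝ≥0∞) * N ^ q) ^ (1 / t) ≤ ENNReal.ofReal ((C : ℝ) + 1) * N ^ p := by
    rw [ENNReal.mul_rpow_of_nonneg _ _ (by positivity), ← ENNReal.rpow_mul]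
    have e1 : q * (1 / t) = p := by rw [h1t]; field_simp
    rw [e1]
    refine mul_le_mul' ?_ le_rfl
    have e2 : (C : ℝ≥0∞) ≤ ENNReal.ofReal ((C : ℝ) + 1) := by
      calc (C : ℝ≥0∞) = ENNReal.ofReal (C : ℝ) := ENNReal.ofReal_coe_nnreal.symm
        _ ≤ _ := ENNReal.ofReal_le_ofReal (by linarith)
    refine (ENNReal.rpow_le_rpow e2 (by positivity)).trans ?_
    rw [ENNReal.ofReal_rpow_of_nonneg (by positivity) (by positivity)]
    refine ENNReal.ofReal_le_ofReal ?_
    have h13 : 1 / t ≤ 1 := by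
      rw [div_le_one ht0]; exact ht1.le
    have hC1 : 1 ≤ (C : ℝ) + 1 := by
      have : 0 ≤ (C : ℝ) := C.2
      linarith
    calc ((C : ℝ) + 1) ^ (1 / t) ≤ ((C : ℝ) + 1) ^ (1 : ℝ) :=
          Real.rpow_le_rpow_of_exponent_le hC1 h13
      _ = _ := Real.rpow_one _
  refine (mul_le_mul' h9 h12).trans (le_of_eq ?_)
  rw [← mul_assoc, ← ENNReal.ofReal_mul (by positivity)]
  congr 2
  ring

end Pool.Agent.N248.RL
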