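import Mathlib
import Pool.Agent.N248.RL.G
set_option autoImplicit false

/-! The converse and the local estimate for general operators. -/

namespace Pool.Agent.N248.RL

open MeasureTheory Set ProbabilityTheory
open scoped ENNReal NNReal RealInnerProductSpace ComplexConjugate
open Pool.Agent.N248.RR

/-- **From random regions back to the local estimate**, for any bounded linear or nonlinear operator -/
theorem conv_op {d : ℕ} {Y : Type*} [MeasurableSpace Y] (μ : Measure Y)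
    (T : (Y → ℂ) → EuclideanSpace ℝ (Fin d) → ℂ) (s : ℝ≥0∞) (K : ℝ≥0∞) (hKt : K ≠ ∞)
    (hK1 : 1 ≤ K) (hTb : ∀ f : Y → ℂ, MemLp f s μ → ∀ x, ‖T f x‖ₑ ≤ K * eLpNorm f s μ)
    {Ω : Type*} [MeasurableSpace Ω] (P : Measure Ω) [IsProbabilityMeasure P]
    (A : (Fin d → ℤ) → Set Ω) (a : ℝ)
    (ha : 0 < a) (hA : RC P A a) (q : ℝ) (hq : 0 < q)
    (hb : ∀ᵐ ω ∂P, ∃ C : ℝ≥0, ∀ f : Y → ℂ, MemLp f s μ →
      ∫⁻ x in ⋃ j ∈ {j | ω ∈ A j}, uq j, ‖T f x‖ₑ ^ q ≤ C * eLpNorm f s μ ^ q) :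
    ∃ C : ℝ, 0 ≤ C ∧ ∀ R : ℝ, 1 ≤ R → ∀ f : Y → ℂ, MemLp f s μ →
      ∫⁻ x in Metric.ball (0 : EuclideanSpace ℝ (Fin d)) R, ‖T f x‖ₑ ^ q ≤
        ENNReal.ofReal (C * R ^ a) * eLpNorm f s μ ^ q := by
  classical
  obtain ⟨c, hc0, hc⟩ := hA.low
  -- a large set of good points
  set G : ℕ → Set Ω := fun m => {ω | ∀ f : Y → ℂ,
    MemLp f s μ → ∫⁻ x in ⋃ j ∈ {j | ω ∈ A j}, uq j, ‖T f x‖ₑ ^ q ≤
      (m : ℝ≥0∞) * eLpNorm f s μ ^ q} with hG
  have hGm : Monotone G := by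
    intro m m' hmm ω hω f hf
    refine (hω f hf).trans (mul_le_mul' ?_ le_rfl)
    exact_mod_cast hmm
  have hGu : P (⋃ m, G m) = 1 := by
    have h1 : ∀ᵐ ω ∂P, ω ∈ ⋃ m, G m := by
      filter_upwards [hb] with ω hω
      obtain ⟨C, hC⟩ := hω
      obtain ⟨m, hm⟩ := exists_nat_ge C
      rw [mem_iUnion]
      refine ⟨m, fun f hf => (hC f hf).trans (mul_le_mul' ?_ le_rfl)⟩
      exact_mod_cast hm
    refine le_antisymm prob_le_one ?_
    rw [← measure_univ (μ := P)]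
    exact measure_mono_ae (by filter_upwards [h1] with ω hω _ using hω)
  obtain ⟨m, hm⟩ : ∃ m, ENNReal.ofReal (1 / 2) < P (G m) := by
    rw [hGm.measure_iUnion] at hGu
    have h1 : ENNReal.ofReal (1 / 2) < ⨆ m, P (G m) := by
      rw [hGu, ← ENNReal.ofReal_one]
      exact (ENNReal.ofReal_lt_ofReal_iff (by norm_num)).2 (by norm_num)
    exact lt_iSup_iff.1 h1
  -- the constant
  set C₁ : ℝ := 8 + 2 * m with hC₁
  have hC₁0 : 0 < C₁ := by positivity
  refine ⟨(K ^ q).toReal * (C₁ * 4 ^ a / c), by positivity, fun R hR f hf => ?_⟩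
  set N : ℝ≥0∞ := eLpNorm f s μ with hN
  have hNt : N ≠ ∞ := hf.2.ne
  by_cases hN0 : N = 0
  · have h2 : ∀ x, T f x = 0 := by
      intro x
      have h3 := hTb f hf x
      rw [← hN, hN0, mul_zero, nonpos_iff_eq_zero, enorm_eq_zero] at h3
      exact h3
    simp_rw [h2]
    rw [enorm_zero, ENNReal.zero_rpow_of_pos hq, lintegral_zero]
    exact zero_le
  set B : ℝ≥0∞ := (K * N) ^ q with hB
  have hKN0 : K * N ≠ 0 := mul_ne_zero (lt_of_lt_of_le one_pos hK1).ne' hN0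
  have hKNt : K * N ≠ ∞ := ENNReal.mul_ne_top hKt hNt
  have hB0 : B ≠ 0 := by
    rw [hB]
    exact (ENNReal.rpow_pos (pos_iff_ne_zero.2 hKN0) hKNt).ne'
  have hBt : B ≠ ∞ := ENNReal.rpow_ne_top_of_nonneg hq.le hKNt
  set Y : (Fin d → ℤ) → ℝ≥0∞ := fun j => ∫⁻ x in uq j, ‖T f x‖ₑ ^ q with hY
  have hYB : ∀ j, Y j ≤ B := by
    intro j
    calc Y j ≤ ∫⁻ _ in uq j, B := lintegral_mono fun x => ENNReal.rpow_le_rpow (hTb f hf x) hq.le
      _ = B := by rw [setLIntegral_const, uq_vol, mul_one]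
  set w : (Fin d → ℤ) → ℝ := fun j => (Y j / B).toReal with hw
  have hYBt : ∀ j, Y j / B ≠ ∞ := fun j =>
    ENNReal.div_ne_top ((hYB j).trans_lt hBt.lt_top).ne hB0
  have hw1 : ∀ j, w j ≤ 1 := by
    intro j
    rw [← ENNReal.toReal_one]
    exact ENNReal.toReal_mono ENNReal.one_ne_top (ENNReal.div_le_of_le_mul (by
      rw [one_mul]; exact hYB j))
  have hwY : ∀ j, ENNReal.ofReal (w j) * B = Y j := by
    intro j
    simp only [hw]
    rw [ENNReal.ofReal_toReal (hYBt j), ENNReal.div_mul_cancel hB0 hBt]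
  obtain ⟨F, hF1, hF2⟩ := ball_cover (d := d) R hR
  -- the sum on the good set
  have hgood : ∀ ω ∈ G m, ∑ j ∈ F, w j * (A j).indicator (fun _ => (1 : ℝ)) ω ≤ m := by
    intro ω hω
    have h1 := hω f hf
    set F' : Finset (Fin d → ℤ) := F.filter fun j => ω ∈ A j with hF'
    have h2 : ∑ j ∈ F', Y j ≤ (m : ℝ≥0∞) * N ^ q := by
      refine le_trans ?_ h1
      simp only [hY]
      rw [← lintegral_biUnion_finset (fun j _ k _ hjk => uq_disj _ _ hjk) (fun j _ => uq_meas _)]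
      refine lintegral_mono_set (iUnion₂_subset fun j hj => ?_)
      exact subset_biUnion_of_mem (show j ∈ {j | ω ∈ A j} from (Finset.mem_filter.1 hj).2)
    have h3 : N ^ q ≤ B := ENNReal.rpow_le_rpow (by
      calc N = 1 * N := (one_mul N).symm
        _ ≤ K * N := mul_le_mul' hK1 le_rfl) hq.le
    have h4 : ENNReal.ofReal (∑ j ∈ F', w j) * B ≤ (m : ℝ≥0∞) * B := by
      rw [ENNReal.ofReal_sum_of_nonneg fun j _ => ENNReal.toReal_nonneg, Finset.sum_mul,
        Finset.sum_congr rfl fun j _ => hwY j]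
      exact h2.trans (mul_le_mul' le_rfl h3)
    have h5 : ENNReal.ofReal (∑ j ∈ F', w j) ≤ (m : ℝ≥0∞) :=
      (ENNReal.mul_le_mul_iff_left hB0 hBt).1 h4
    rw [← ENNReal.ofReal_natCast, ENNReal.ofReal_le_ofReal_iff (Nat.cast_nonneg _)] at h5
    refine le_trans (le_of_eq ?_) h5
    rw [hF', Finset.sum_filter]
    refine Finset.sum_congr rfl fun j _ => ?_
    by_cases h : ω ∈ A j
    · rw [indicator_of_mem h, if_pos h, mul_one]
    · rw [indicator_of_notMem h, if_neg h, mul_zero]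
  have hmean : ∑ j ∈ F, w j * P.real (A j) ≤ C₁ := by
    by_contra hcon
    push Not at hcon
    have h1 := wmany P A hA.meas hA.indep F w (fun j => ENNReal.toReal_nonneg) hw1
      (hC₁0.trans hcon)
    have hm0 : (0 : ℝ) ≤ m := Nat.cast_nonneg m
    have h2 : P (G m) ≤ ENNReal.ofReal (1 / 2) := by
      refine (measure_mono fun ω hω => ?_).trans (h1.trans (ENNReal.ofReal_le_ofReal ?_))
      · have h3 := hgood ω hω
        show ∑ j ∈ F, w j * (A j).indicator (fun _ => (1 : ℝ)) ω < _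
        linarith
      · rw [div_le_div_iff₀ (hC₁0.trans hcon) (by norm_num)]
        linarith
    exact absurd hm (not_lt.2 h2)
  have h4R : (0 : ℝ) < 4 * R := by linarith
  have hsum : ∑ j ∈ F, w j ≤ C₁ * 4 ^ a / c * R ^ a := by
    have h1 : ∀ j ∈ F, c * (4 * R) ^ (-a) ≤ P.real (A j) := by
      intro j hj
      have h2 : c * (1 + ‖j‖) ^ (-a) ≤ P.real (A j) := by
        have := hc j
        rw [Measure.real]
        exact (ENNReal.ofReal_le_iff_le_toReal (measure_ne_top P _)).1 this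
      refine le_trans (mul_le_mul_of_nonneg_left ?_ hc0.le) h2
      refine Real.rpow_le_rpow_of_nonpos ?_ (hF1 j hj) (by linarith)
      have := norm_nonneg j
      linarith
    have h3 : (∑ j ∈ F, w j) * (c * (4 * R) ^ (-a)) ≤ C₁ := by
      rw [Finset.sum_mul]
      exact (Finset.sum_le_sum fun j hj =>
        mul_le_mul_of_nonneg_left (h1 j hj) ENNReal.toReal_nonneg).trans hmean
    have h4 : 0 < c * (4 * R) ^ (-a) := by positivity
    rw [← le_div_iff₀ h4] at h3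
    refine h3.trans (le_of_eq ?_)
    rw [Real.rpow_neg h4R.le, Real.mul_rpow (by norm_num) (by linarith)]
    have h5 : (0 : ℝ) < 4 ^ a := by positivity
    have h6 : (0 : ℝ) < R ^ a := by positivity
    field_simp
  calc ∫⁻ x in Metric.ball (0 : EuclideanSpace ℝ (Fin d)) R, ‖T f x‖ₑ ^ q
      ≤ ∫⁻ x in ⋃ j ∈ F, uq j, ‖T f x‖ₑ ^ q := lintegral_mono_set hF2
    _ = ∑ j ∈ F, Y j :=
        lintegral_biUnion_finset (fun j _ k _ hjk => uq_disj _ _ hjk) (fun j _ => uq_meas _) _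
    _ = ENNReal.ofReal (∑ j ∈ F, w j) * B := by
        rw [ENNReal.ofReal_sum_of_nonneg fun j _ => ENNReal.toReal_nonneg, Finset.sum_mul,
          Finset.sum_congr rfl fun j _ => hwY j]
    _ ≤ ENNReal.ofReal (C₁ * 4 ^ a / c * R ^ a) * B :=
        mul_le_mul' (ENNReal.ofReal_le_ofReal hsum) le_rfl
    _ = ENNReal.ofReal ((K ^ q).toReal * (C₁ * 4 ^ a / c) * R ^ a) * N ^ q := by
        have hKq : K ^ q ≠ ∞ := ENNReal.rpow_ne_top_of_nonneg hq.le hKt
        rw [hB, ENNReal.mul_rpow_of_nonneg _ _ hq.le, mul_assoc (K ^ q).toReal,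
          ENNReal.ofReal_mul ENNReal.toReal_nonneg, ENNReal.ofReal_toReal hKq]
        ring


/-- the local estimate from the global ones, for general operators -/
theorem loc_of_glob_op {d₀ : ℕ} {Y : Type*} [MeasurableSpace Y] (μ : Measure Y)
    (T : (Y → ℂ) → EuclideanSpace ℝ (Fin d₀) → ℂ) (s : ℝ≥0∞)
    (hTm : ∀ f : Y → ℂ, MemLp f s μ → Measurable (T f)) (p : ℝ) (hp : 0 < p)
    (h : ∀ q, p < q → ∃ C : ℝ≥0, ∀ f : Y → ℂ, MemLp f s μ →
      ∫⁻ x, ‖T f x‖ₑ ^ q ≤ C * eLpNorm f s μ ^ q) :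
    ∀ ε : ℝ, 0 < ε → ∃ C₀ : ℝ, 0 ≤ C₀ ∧ ∀ R' : ℝ, 1 ≤ R' → ∀ f : Y → ℂ, MemLp f s μ →
      ∫⁻ x in Metric.ball (0 : EuclideanSpace ℝ (Fin d₀)) R', ‖T f x‖ₑ ^ p ≤
        ENNReal.ofReal (C₀ * R' ^ ε) * eLpNorm f s μ ^ p := by
  intro ε hε
  -- the exponent
  set d : ℝ := (d₀ : ℝ) + 1 with hd
  have hd0 : 0 < d := by positivity
  set q : ℝ := p * (1 + ε / d) with hq
  have hεd : 0 < ε / d := by positivity
  have hpq : p < q := by rw [hq]; nlinarith
  have hq0 : 0 < q := hp.trans hpq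
  set t : ℝ := q / p with ht
  have ht1 : 1 < t := by rw [ht, one_lt_div hp]; exact hpq
  have ht0 : 0 < t := by linarith
  obtain ⟨C, hC⟩ := h q hpq
  set V : ℝ := volume.real (Metric.ball (0 : EuclideanSpace ℝ (Fin d₀)) 1) + 1 with hV
  have hV1 : 1 ≤ V := by
    have : 0 ≤ volume.real (Metric.ball (0 : EuclideanSpace ℝ (Fin d₀)) 1) :=
      measureReal_nonneg
    linarith
  refine ⟨V * ((C : ℝ) + 1), by positivity, fun R hR f hf => ?_⟩
  set N : ℝ≥0∞ := eLpNorm f s μ with hN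
  set ν : Measure (EuclideanSpace ℝ (Fin d₀)) := volume.restrict (Metric.ball 0 R) with hν
  have h1 := holder_const ν t ht1 (fun x => ‖T f x‖ₑ ^ p) ((hTm f hf).enorm.pow_const p).aemeasurable
  have h2 : ∀ x, (‖T f x‖ₑ ^ p) ^ t = ‖T f x‖ₑ ^ q := by
    intro x
    rw [← ENNReal.rpow_mul, ht, mul_div_cancel₀ _ hp.ne']
  simp_rw [h2] at h1
  have h3 : ∫⁻ x, ‖T f x‖ₑ ^ q ∂ν ≤ C * N ^ q := by
    exact (setLIntegral_le_lintegral _ _).trans (hC f hf)
  have h5 : ∫⁻ x, ‖T f x‖ₑ ^ p ∂ν ≤ ν univ ^ (1 / Real.conjExponent t) * (C * N ^ q) ^ (1 / t) := by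
    have h6 : (∫⁻ x, ‖T f x‖ₑ ^ p ∂ν) ^ t ≤
        (ν univ ^ (1 / Real.conjExponent t)) ^ t * (C * N ^ q) := h1.trans (mul_le_mul' le_rfl h3)
    have h7 := ENNReal.rpow_le_rpow h6 (show 0 ≤ 1 / t by positivity)
    rw [ENNReal.mul_rpow_of_nonneg _ _ (by positivity), ← ENNReal.rpow_mul, ← ENNReal.rpow_mul,
      mul_one_div_cancel ht0.ne', ENNReal.rpow_one, ENNReal.rpow_one] at h7
    exact h7
  refine h5.trans ?_
  have hconj : 1 / Real.conjExponent t = 1 - 1 / t := by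
    have h8 := (Real.HolderConjugate.conjExponent ht1).inv_add_inv_eq_one
    rw [one_div, one_div]
    linarith
  have h1t : 1 / t = p / q := by rw [ht, one_div_div]
  have hpq1 : 1 - p / q ≤ ε / d := by
    rw [hq]
    have : p / (p * (1 + ε / d)) = 1 / (1 + ε / d) := by
      field_simp
    rw [this, one_sub_div (by positivity), add_sub_cancel_left]
    exact div_le_self hεd.le (by linarith)
  have hpq0 : 0 ≤ 1 - p / q := by
    rw [sub_nonneg, div_le_one hq0]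
    exact hpq.le
  have hpq2 : 1 - p / q ≤ 1 := by
    have : 0 < p / q := by positivity
    linarith
  have h9 : ν univ ^ (1 / Real.conjExponent t) ≤ ENNReal.ofReal (V * R ^ ε) := by
    rw [hν, Measure.restrict_apply_univ, hconj, h1t]
    have h10 : volume (Metric.ball (0 : EuclideanSpace ℝ (Fin d₀)) R) ≤
        ENNReal.ofReal (V * R ^ d) := by
      rw [Measure.addHaar_ball_of_pos volume _ (by linarith), finrank_euclideanSpace,
        Fintype.card_fin]
      have h11 : volume (Metric.ball (0 : EuclideanSpace ℝ (Fin d₀)) 1) ≤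
          ENNReal.ofReal V := by
        rw [← ENNReal.ofReal_toReal (measure_ball_lt_top (μ := volume)
          (x := (0 : EuclideanSpace ℝ (Fin d₀))) (r := 1)).ne]
        refine ENNReal.ofReal_le_ofReal ?_
        rw [hV, Measure.real]
        linarith
      rw [mul_comm V, ENNReal.ofReal_mul (by positivity)]
      refine mul_le_mul' (ENNReal.ofReal_le_ofReal ?_) h11
      rw [← Real.rpow_natCast]
      exact Real.rpow_le_rpow_of_exponent_le hR (by rw [hd]; linarith)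
    refine (ENNReal.rpow_le_rpow h10 hpq0).trans ?_
    rw [ENNReal.ofReal_rpow_of_nonneg (by positivity) hpq0]
    refine ENNReal.ofReal_le_ofReal ?_
    rw [Real.mul_rpow (by linarith) (by positivity), ← Real.rpow_mul (by linarith)]
    refine mul_le_mul ?_ ?_ (by positivity) (by linarith)
    · calc V ^ (1 - p / q) ≤ V ^ (1 : ℝ) := Real.rpow_le_rpow_of_exponent_le hV1 hpq2
        _ = V := Real.rpow_one V
    · refine Real.rpow_le_rpow_of_exponent_le hR ?_
      calc d * (1 - p / q) ≤ d * (ε / d) := mul_le_mul_of_nonneg_left hpq1 hd0.le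
        _ = ε := by field_simp
  have h12 : ((C : ℝ≥0∞) * N ^ q) ^ (1 / t) ≤ ENNReal.ofReal ((C : ℝ) + 1) * N ^ p := by
    rw [ENNReal.mul_rpow_of_nonneg _ _ (by positivity), ← ENNReal.rpow_mul]
    have e1 : q * (1 / t) = p := by rw [h1t]; field_simp
    rw [e1]
    refine mul_le_mul' ?_ le_rfl
    have e2 : (C : ℝ≥0∞) ≤ ENNReal.ofReal ((C : ℝ) + 1) := by
      calc (C : ℝ≥0∞) = ENNReal.ofReal (C : ℝ) := ENNReal.ofReal_coe_nnreal.symm
        _ ≤ _ := ENNReal.ofReal_le_ofReal (by linarith)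
    refine (ENNReal.rpow_le_rpow e2 (by positivity)).trans ?_
    rw [ENNReal.ofReal_rpow_of_nonneg (by positivity) (by positivity)]
    refine ENNReal.ofReal_le_ofReal ?_
    have h13 : 1 / t ≤ 1 := by
      rw [div_le_one ht0]; exact ht1.le
    have hC1 : 1 ≤ (C : ℝ) + 1 := by
      have : 0 ≤ (C : ℝ) := C.2
      linarith
    calc ((C : ℝ) + 1) ^ (1 / t) ≤ ((C : ℝ) + 1) ^ (1 : ℝ) :=
          Real.rpow_le_rpow_of_exponent_le hC1 h13
      _ = _ := Real.rpow_one _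
  refine (mul_le_mul' h9 h12).trans (le_of_eq ?_)
  rw [← mul_assoc, ← ENNReal.ofReal_mul (by positivity)]
  congr 2
  ring


end Pool.Agent.N248.RL
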