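import Mathlib
import Pool.Agent.N248.RL.H
import Pool.Agent.N248.RR.S4
set_option autoImplicit false

/-! Random regions for the sphere, from a local estimate and back. -/

namespace Pool.Agent.N248.RL

open MeasureTheory Set ProbabilityTheory Filter
open scoped ENNReal NNReal RealInnerProductSpace ComplexConjugate
open Pool.Agent.N248.RR
open Pool.Agent.H789R2.FR (sg T sg_finite sg_ae)

variable {n : ℕ}

/-- local boundedness with small losses -/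
def LocS (n : ℕ) (s₀ : ℝ) (s : ℝ≥0∞) (p : ℝ) : Prop :=
  ∀ ε : ℝ, 0 < ε → ∃ C₀ : ℝ, 0 ≤ C₀ ∧ ∀ R' : ℝ, 1 ≤ R' → ∀ f : EuclideanSpace ℝ (Fin n) → ℂ,
    MemLp f s (sg n) → ∫⁻ x in Metric.ball (0 : EuclideanSpace ℝ (Fin n)) R', ‖sF s₀ f x‖ₑ ^ p ≤
      ENNReal.ofReal (C₀ * R' ^ ε) * eLpNorm f s (sg n) ^ p

theorem sph_surf (hn : 2 ≤ n) (s₀ : ℝ) (hs₀ : s₀ ≠ 0) :
    ∃ L' : ℝ, Surf (Metric.closedBall 0 1) (ps (sg n) (sS s₀) (sS_meas s₀))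
      (2 + 2 / (((n : ℝ) - 1) / 2)) L' (((n : ℝ) - 1) / 2) := by
  have hnR : (2 : ℝ) ≤ n := by exact_mod_cast hn
  obtain ⟨L₁, hL₁0, hL₁⟩ := sph_energy hn s₀ hs₀
  obtain ⟨L₂, hL₂0, hL₂⟩ := sph_decay hn s₀ hs₀
  have hR : ∀ᵐ w ∂(sg n), ‖sS s₀ w‖ ≤ |s₀| := by
    filter_upwards [sg_ae n] with w hw
    unfold sS
    rw [norm_smul, hw, mul_one, Real.norm_eq_abs]
  exact surf_ball (sg n) (sS s₀) (sS_meas s₀) (id : Fin n → Fin n) (L₁ + L₂)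
    (((n : ℝ) - 1) / 2) (((n : ℝ) - 1) / 2) (by linarith) (by linarith) (by linarith)
    (by
      intro f B hB α τ hτ hBα
      refine (hL₁ f B hB α τ hτ hBα).trans (mul_le_mul' (ENNReal.ofReal_le_ofReal ?_) le_rfl)
      exact mul_le_mul_of_nonneg_right (by linarith) (by linarith))
    |s₀| (abs_nonneg _) hR
    (by
      intro x t hx
      have hx0 : x ≠ 0 := by
        intro h0
        rw [h0] at hx
        simp only [id_eq, PiLp.zero_apply, abs_zero] at hx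
        linarith
      refine (hL₂ x hx0).trans ?_
      exact mul_le_mul (by linarith) (coord_pow hn x t hx) (by positivity) (by linarith))
    (by
      intro x hx
      refine (hL₂ x hx).trans ?_
      exact mul_le_mul_of_nonneg_right (by linarith) (by positivity))

theorem sph_loc (hn : 2 ≤ n) (s₀ : ℝ) (hs₀ : s₀ ≠ 0)
    {Ω : Type*} [MeasurableSpace Ω] (P : Measure Ω) (A : (Fin n → ℤ) → Set Ω) (a : ℝ)
    (ha : 0 < a) (ha1 : a ≤ 1) (hA : RC P A a) (s : ℝ≥0∞) (hs : 2 ≤ s) (p : ℝ) (hp2 : 2 ≤ p)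
    (hext : LocS n s₀ s p) :
    ∀ᵐ ω ∂P, ∀ q : ℝ, p - a * (p - 2) < q → BddS s₀ s q (⋃ j ∈ {j | ω ∈ A j}, uq j) := by
  obtain ⟨c, hc1, hc⟩ := hA.up1
  obtain ⟨L', hS⟩ := sph_surf hn s₀ hs₀
  have hR : ∀ᵐ w ∂(sg n), ‖sS s₀ w‖ ≤ |s₀| := by
    filter_upwards [sg_ae n] with w hw
    unfold sS
    rw [norm_smul, hw, mul_one, Real.norm_eq_abs]
  have h := norm_loc (sg n) (sS s₀) (sS_meas s₀) hS |s₀| (abs_nonneg _) hR univ MeasurableSet.univ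
    s hs p hp2 (by
      rw [Measure.restrict_univ]
      exact hext) P A a c ha ha1 hc1 hA.prod hc
  rw [Measure.restrict_univ] at h
  exact h

theorem sF_bound (s₀ : ℝ) (s : ℝ≥0∞) (hs : 1 ≤ s) : ∃ K : ℝ≥0∞, K ≠ ∞ ∧ 1 ≤ K ∧
    ∀ f : EuclideanSpace ℝ (Fin n) → ℂ, MemLp f s (sg n) → ∀ x,
      ‖sF s₀ f x‖ₑ ≤ K * eLpNorm f s (sg n) := by
  set K : ℝ≥0∞ := (sg n) univ ^ (1 / (1 : ℝ≥0∞).toReal - 1 / s.toReal) + 1 with hK
  have hexp : 0 ≤ 1 / (1 : ℝ≥0∞).toReal - 1 / s.toReal := by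
    by_cases hst : s = ∞
    · rw [hst]; simp
    · have h1 : (1 : ℝ≥0∞).toReal ≤ s.toReal := ENNReal.toReal_mono hst hs
      rw [ENNReal.toReal_one] at h1 ⊢
      rw [sub_nonneg]
      exact one_div_le_one_div_of_le (by norm_num) h1
  have hKt : K ≠ ∞ := ENNReal.add_ne_top.2
    ⟨ENNReal.rpow_ne_top_of_nonneg hexp (measure_ne_top _ _), ENNReal.one_ne_top⟩
  refine ⟨K, hKt, le_add_self, fun f hf x => ?_⟩
  refine (sF_norm s₀ f x).trans ?_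
  rw [mul_comm]
  exact (eLpNorm_le_eLpNorm_mul_rpow_measure_univ hs hf.1).trans
    (mul_le_mul' le_rfl (le_add_right le_rfl))

theorem sph_conv (s₀ : ℝ) {Ω : Type*} [MeasurableSpace Ω] (P : Measure Ω) [IsProbabilityMeasure P]
    (A : (Fin n → ℤ) → Set Ω) (a : ℝ) (ha : 0 < a) (hA : RC P A a) (s : ℝ≥0∞) (hs : 1 ≤ s) (q : ℝ)
    (hq : 0 < q) (hb : ∀ᵐ ω ∂P, BddS s₀ s q (⋃ j ∈ {j | ω ∈ A j}, uq j)) :
    ∃ C : ℝ, 0 ≤ C ∧ ∀ R : ℝ, 1 ≤ R → ∀ f : EuclideanSpace ℝ (Fin n) → ℂ, MemLp f s (sg n) →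
      ∫⁻ x in Metric.ball (0 : EuclideanSpace ℝ (Fin n)) R, ‖sF s₀ f x‖ₑ ^ q ≤
        ENNReal.ofReal (C * R ^ a) * eLpNorm f s (sg n) ^ q := by
  obtain ⟨K, hKt, hK1, hK⟩ := sF_bound (n := n) s₀ s hs
  exact conv_op (sg n) (sF s₀) s K hKt hK1 hK P A a ha hA q hq hb

theorem sF_meas' (s₀ : ℝ) (f : EuclideanSpace ℝ (Fin n) → ℂ) (hf : AEStronglyMeasurable f (sg n)) :
    Measurable (sF s₀ f) := by
  have h : sF s₀ f = sF s₀ (hf.mk f) := by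
    ext x
    exact sF_congr s₀ hf.ae_eq_mk x
  rw [h]
  exact sF_meas s₀ _ hf.stronglyMeasurable_mk.measurable

theorem sph_glob (s₀ : ℝ) (s : ℝ≥0∞) (hs : 1 ≤ s) (p : ℝ) (hp : 1 ≤ p)
    (h : ∀ q, p < q → ∀ f : EuclideanSpace ℝ (Fin n) → ℂ, MemLp f s (sg n) →
      ∫⁻ x, ‖sF s₀ f x‖ₑ ^ q ≠ ∞) : LocS n s₀ s p := by
  refine loc_of_glob_op (sg n) (sF s₀) s (fun f hf => sF_meas' s₀ f hf.1) p (by linarith)
    fun q hq => ?_
  obtain ⟨C, hC⟩ := closed_graph s₀ s hs q (by linarith) (h q hq)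
  refine ⟨C, fun f hf => ?_⟩
  have h1 := hC f hf
  rw [setLIntegral_univ] at h1
  exact h1

end Pool.Agent.N248.RL
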