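import Mathlib
import Pool.Agent.N248.RL.H
set_option autoImplicit false

/-! The local estimate from the global ones, for pieces of the paraboloid. -/

namespace Pool.Agent.N248.RL

open MeasureTheory Set
open scoped ENNReal NNReal RealInnerProductSpace
open Pool.Agent.N248.RR
open Pool.Agent.R412.RT (Phi)

variable {n : ℕ}

theorem loc_of_glob_U (s₀ : ℝ) (U : Set (EuclideanSpace ℝ (Fin n))) (hU : MeasurableSet U)
    (hUc : U ⊆ cub n) (s : ℝ≥0∞) (hs : 2 ≤ s) (p : ℝ) (hp : 0 < p)
    (h : ∀ q, p < q → Bdd s₀ U s q univ) : LocBdd s₀ U s p := by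
  have hUv : volume U ≠ ∞ := ((measure_mono hUc).trans_lt (cub_vol n).lt_top).ne
  have hfin : IsFiniteMeasure (volume.restrict U) :=
    ⟨by rw [Measure.restrict_apply_univ]; exact hUv.lt_top⟩
  refine loc_of_glob_op (volume.restrict U) (fun f x => ∫ ξ in U, ex (s₀ * ⟪Phi ξ, x⟫) * f ξ) s
    (fun f hf => ?_) p hp fun q hq => ?_
  · obtain ⟨F, hF1, hF2⟩ := fn_level s₀ U hU hUc f (hf.mono_exponent hs)
    have h1 := ps_meas (volume.restrict (cub n)) (sPhi s₀) (sPhi_meas s₀) F
    simp_rw [hF2] at h1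
    exact h1
  · obtain ⟨C, hC⟩ := h q hq
    refine ⟨C, fun f hf => ?_⟩
    have h1 := hC f hf
    rw [setLIntegral_univ] at h1
    exact h1

end Pool.Agent.N248.RL
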