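import Mathlib
import Pool.Agent.N248.RR.Z
set_option autoImplicit false

/-! Existence of the random cubes. -/

namespace Pool.Agent.N248.RL

open MeasureTheory Set ProbabilityTheory
open scoped ENNReal NNReal
open Pool.Agent.N248.RR

theorem exists_cubes (d : ℕ) (a : ℝ) (ha : 0 < a) :
    ∃ (Ω : Type) (_ : MeasurableSpace Ω) (P : Measure Ω) (_ : IsProbabilityMeasure P)
      (A : (Fin d → ℤ) → Set Ω), RC P A a := by
  classical
  set μ : Measure ℝ := volume.restrict (Icc 0 1) with hμ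
  have hμp : IsProbabilityMeasure μ := ⟨by rw [hμ, Measure.restrict_apply_univ]; simp⟩
  set P : Measure ((Fin d → ℤ) → ℝ) := Measure.infinitePi fun _ => μ with hP
  set A : (Fin d → ℤ) → Set ((Fin d → ℤ) → ℝ) := fun j => {ω | ω j ≤ (1 + ‖j‖) ^ (-a)} with hA
  have hAm : ∀ j, MeasurableSet (A j) := fun j =>
    measurableSet_le (measurable_pi_apply j) measurable_const
  have hpi : ∀ s : Finset (Fin d → ℤ), P (⋂ i ∈ s, A i) =
      ∏ i ∈ s, μ (Iic ((1 + ‖i‖) ^ (-a))) := by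
    intro s
    have h1 : (⋂ i ∈ s, A i) = Set.pi s fun i => Iic ((1 + ‖i‖) ^ (-a)) := by
      ext ω
      simp [hA, Set.mem_pi]
    rw [h1, hP, Measure.infinitePi_pi _ (fun i _ => measurableSet_Iic)]
  have hone : ∀ j, P (A j) = ENNReal.ofReal ((1 + ‖j‖) ^ (-a)) := by
    intro j
    have h1 := hpi {j}
    rw [Finset.prod_singleton] at h1
    have h2 : (⋂ i ∈ ({j} : Finset (Fin d → ℤ)), A i) = A j := by simp
    rw [h2] at h1
    rw [h1, hμ, Measure.restrict_apply measurableSet_Iic]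
    have h3 : (0 : ℝ) ≤ (1 + ‖j‖) ^ (-a) := by
      have := norm_nonneg j
      positivity
    have h4 : (1 + ‖j‖) ^ (-a) ≤ (1 : ℝ) :=
      Real.rpow_le_one_of_one_le_of_nonpos (by linarith [norm_nonneg j]) (by linarith)
    have h5 : Iic ((1 + ‖j‖) ^ (-a)) ∩ Icc (0 : ℝ) 1 = Icc 0 ((1 + ‖j‖) ^ (-a)) := by
      ext x
      simp only [mem_inter_iff, mem_Iic, mem_Icc]
      constructor
      · rintro ⟨h6, h7, h8⟩; exact ⟨h7, h6⟩
      · rintro ⟨h6, h7⟩; exact ⟨h7, h6, h7.trans h4⟩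
    rw [h5, Real.volume_Icc, sub_zero]
  refine ⟨(Fin d → ℤ) → ℝ, inferInstance, P, by rw [hP]; infer_instance, A, hAm, ?_,
    ⟨1, one_pos, fun j => ?_⟩, ⟨1, fun j => ?_⟩⟩
  · rw [iIndepSet_iff_meas_biInter hAm]
    intro s
    rw [hpi s]
    refine Finset.prod_congr rfl fun j _ => ?_
    have h1 := hpi {j}
    rw [Finset.prod_singleton] at h1
    have h2 : (⋂ i ∈ ({j} : Finset (Fin d → ℤ)), A i) = A j := by simp
    rw [h2] at h1
    exact h1.symm
  · rw [one_mul, hone]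
  · rw [one_mul, hone]

end Pool.Agent.N248.RL
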